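import Pool.Agent.Y349.KS.Seg2

set_option autoImplicit false

/-!
The final graph: input vertices, and one copy of the ring for every vector of input colours.
-/

namespace Pool.Agent.Y349.KS

open Finset

/-- the final graph: `a` inputs, the index set `C` of the copies, and for every block `t` of the
ring the set `ν t` of inputs adjacent to it -/
def fin (g n N a : ℕ) (C : Type) (ν : ZMod N → Finset (Fin a)) :
    SimpleGraph (Fin a ⊕ (C × Vt g n N)) where
  Adj u v := match u, v with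
    | Sum.inl _, Sum.inl _ => False
    | Sum.inl j, Sum.inr x => j ∈ ν x.2.1
    | Sum.inr x, Sum.inl j => j ∈ ν x.2.1
    | Sum.inr x, Sum.inr y => x.1 = y.1 ∧ (ring g n N).Adj x.2 y.2
  symm := ⟨by
    rintro (u | u) (v | v) h
    · exact h
    · exact h
    · exact h
    · exact ⟨h.1.symm, h.2.symm⟩⟩
  loopless := ⟨by
    rintro (u | u) h
    · exact h
    · exact (ring g n N).irrefl h.2⟩

/-- `fin` is not choosable from lists of size `r + f + g`, where `f = 3(2g+1) + n` and every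
`ν t` has `r` elements -/
theorem fin_not_choosable (g n N a r : ℕ) [NeZero N] (hN1 : (1 : ZMod N) ≠ 0) (hN : Odd N)
    (ν : ZMod N → Finset (Fin a)) (hν : ∀ t, (ν t).card = r) :
    ¬ ∀ L : (Fin a ⊕ ((Fin a → Fin (r + (3 * (2 * g + 1) + n) + g)) × Vt g n N)) → Finset ℕ,
      (∀ v, r + (3 * (2 * g + 1) + n) + g ≤ (L v).card) →
      ∃ φ : (Fin a ⊕ ((Fin a → Fin (r + (3 * (2 * g + 1) + n) + g)) × Vt g n N)) → ℕ,
        (∀ v, φ v ∈ L v) ∧ ∀ u v, (fin g n N a _ ν).Adj u v → φ u ≠ φ v := by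
  classical
  intro hall
  set f := 3 * (2 * g + 1) + n with hf
  set w := r + f + g with hw
  -- colours of the inputs
  let enc : Fin a → Fin w → ℕ := fun j c => (f + g) + (w * j.1 + c.1)
  have henc : ∀ j j' c c', enc j c = enc j' c' → j = j' ∧ c = c' := by
    intro j j' c c' h
    have h1 : w * j.1 + c.1 = w * j'.1 + c'.1 := Nat.add_left_cancel h
    have hc := c.2
    have hc' := c'.2
    have hj : j.1 = j'.1 := by
      have h2 : (w * j.1 + c.1) / w = (w * j'.1 + c'.1) / w := by rw [h1]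
      rw [Nat.mul_add_div (by omega), Nat.mul_add_div (by omega), Nat.div_eq_of_lt hc,
        Nat.div_eq_of_lt hc'] at h2
      simpa using h2
    rw [hj] at h1
    exact ⟨Fin.ext hj, Fin.ext (by omega)⟩
  let L : (Fin a ⊕ ((Fin a → Fin w) × Vt g n N)) → Finset ℕ := fun v => match v with
    | Sum.inl j => univ.image (enc j)
    | Sum.inr x => range (f + g) ∪ (ν x.2.1).image fun j => enc j (x.1 j)
  have hL : ∀ v, w ≤ (L v).card := by
    rintro (j | x)
    · have : Function.Injective (enc j) := fun c c' h => (henc j j c c' h).2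
      simp only [L]
      rw [card_image_of_injective _ this]
      simp
    · have hinj : Function.Injective fun j => enc j (x.1 j) := fun j j' h => (henc _ _ _ _ h).1
      have hdis : Disjoint (range (f + g)) ((ν x.2.1).image fun j => enc j (x.1 j)) := by
        rw [disjoint_left]
        intro y hy hy'
        obtain ⟨j, _, rfl⟩ := mem_image.mp hy'
        have h1 := mem_range.mp hy
        simp only [enc] at h1
        omega
      simp only [L]
      rw [card_union_of_disjoint hdis, card_image_of_injective _ hinj, card_range, hν]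
      omega
  obtain ⟨φ, hφ, hp⟩ := hall L hL
  have hc : ∀ j : Fin a, ∃ c : Fin w, enc j c = φ (Sum.inl j) := by
    intro j
    have h1 := hφ (Sum.inl j)
    simp only [L] at h1
    obtain ⟨c, _, hc⟩ := mem_image.mp h1
    exact ⟨c, hc⟩
  choose c hc using hc
  refine ring_not_colorable g n N hN1 hN (fun v => φ (Sum.inr (c, v))) ?_ ?_
  · intro v
    have h1 := hφ (Sum.inr (c, v))
    simp only [L] at h1
    rcases mem_union.mp h1 with h2 | h2
    · have h3 := mem_range.mp h2
      omega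
    · exfalso
      obtain ⟨j, hj, hj'⟩ := mem_image.mp h2
      have hj' : enc j (c j) = φ (Sum.inr (c, v)) := hj'
      rw [hc j] at hj'
      exact hp (Sum.inl j) (Sum.inr (c, v)) hj hj'
  · intro u v huv
    exact hp (Sum.inr (c, u)) (Sum.inr (c, v)) ⟨rfl, huv⟩

/-- `fin` is `(k,0,p)`-choosable for `k = r + f` when every `r`-set of inputs is some `ν t` and
there are more than `p (r - 1)` inputs -/
theorem fin_choosable (g n N a r p : ℕ) [NeZero N] (hN1 : (1 : ZMod N) ≠ 0)
    (hcard : 50 * (3 * Fintype.card (Cell g) ^ 2 + 12 * (2 * g + 1)) < n)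
    (C : Type) [Fintype C] (ν : ZMod N → Finset (Fin a)) (hν : ∀ t, (ν t).card = r)
    (hsurj : ∀ T : Finset (Fin a), T.card = r → ∃ t, ν t = T) (hr : 1 ≤ r)
    (ha : p * (r - 1) < a)
    (hD : 2 * Fintype.card (Tm g n) + 1 < r + (3 * (2 * g + 1) + n))
    (L : (Fin a ⊕ (C × Vt g n N)) → Finset ℕ)
    (hL : ∀ v, r + (3 * (2 * g + 1) + n) ≤ (L v).card) (hp : (univ.biUnion L).card ≤ p) :
    ∃ φ : (Fin a ⊕ (C × Vt g n N)) → ℕ,
      (∀ v, φ v ∈ L v) ∧ ∀ u v, (fin g n N a C ν).Adj u v → φ u ≠ φ v := by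
  classical
  have hne : ∀ j : Fin a, ∃ x, x ∈ L (Sum.inl j) := by
    intro j
    have h1 := hL (Sum.inl j)
    exact card_pos.mp (by omega)
  choose ψ hψ using hne
  obtain ⟨z, _, hz⟩ := exists_lt_card_fiber_of_mul_lt_card_of_maps_to
    (s := (univ : Finset (Fin a))) (t := univ.biUnion L) (f := ψ) (n := r - 1)
    (fun j _ => mem_biUnion.mpr ⟨Sum.inl j, mem_univ _, hψ j⟩) (by
      rw [card_univ, Fintype.card_fin]
      exact (Nat.mul_le_mul_right _ hp).trans_lt ha)
  obtain ⟨T, hT, hTc⟩ := exists_subset_card_eq (s := univ.filter fun j => ψ j = z) (n := r)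
    (by omega)
  obtain ⟨i0, hi0⟩ := hsurj T hTc
  have hcopy : ∀ c : C, ∃ φ : Vt g n N → ℕ, (∀ v, φ v ∈ L (Sum.inr (c, v))) ∧
      (∀ v, ∀ j ∈ ν v.1, φ v ≠ ψ j) ∧ ∀ u v, (ring g n N).Adj u v → φ u ≠ φ v := by
    intro c
    obtain ⟨φ1, h1, h2⟩ := ring_cut hN1 hcard i0
      (fun v => L (Sum.inr (c, v)) \ (ν v.1).image ψ) (by
        intro v _
        have h3 := hL (Sum.inr (c, v))
        have h4 := le_card_sdiff ((ν v.1).image ψ) (L (Sum.inr (c, v)))
        have h5 : ((ν v.1).image ψ).card ≤ r := card_image_le.trans (le_of_eq (hν _))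
        omega)
    obtain ⟨φ, h3, h4, h5⟩ := greedy (ring g n N).Adj (fun _ _ h => h.symm)
      (fun v => (ring g n N).irrefl) (univ.filter fun v => v.1 ≠ i0) φ1
      (by
        intro u hu v hv huv
        exact h2 u v (mem_filter.mp hu).2 (mem_filter.mp hv).2 huv)
      (fun v => L (Sum.inr (c, v)) \ {z})
      (by
        intro v _
        refine lt_of_le_of_lt (ring_degree g n N v) ?_
        have h3 := hL (Sum.inr (c, v))
        have h4 := le_card_sdiff {z} (L (Sum.inr (c, v)))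
        rw [card_singleton] at h4
        omega)
    refine ⟨φ, ?_, ?_, h5⟩
    · intro v
      by_cases hv : v.1 ≠ i0
      · rw [h3 v (mem_filter.mpr ⟨mem_univ _, hv⟩)]
        exact (mem_sdiff.mp (h1 v hv)).1
      · exact (mem_sdiff.mp (h4 v fun h => hv (mem_filter.mp h).2)).1
    · intro v j hj
      by_cases hv : v.1 ≠ i0
      · rw [h3 v (mem_filter.mpr ⟨mem_univ _, hv⟩)]
        intro he
        exact (mem_sdiff.mp (h1 v hv)).2 (mem_image.mpr ⟨j, hj, he.symm⟩)
      · have h6 := (mem_sdiff.mp (h4 v fun h => hv (mem_filter.mp h).2)).2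
        rw [not_not] at hv
        rw [hv, hi0] at hj
        have h7 : ψ j = z := (mem_filter.mp (hT hj)).2
        rw [h7]
        intro he
        exact h6 (mem_singleton.mpr he)
  choose φ hφ1 hφ2 hφ3 using hcopy
  refine ⟨fun v => match v with
    | Sum.inl j => ψ j
    | Sum.inr x => φ x.1 x.2, ?_, ?_⟩
  · rintro (j | x)
    · exact hψ j
    · exact hφ1 x.1 x.2
  · rintro (j | x) (j' | y) h
    · exact absurd h id
    · exact (hφ2 y.1 y.2 j h).symm
    · exact hφ2 x.1 x.2 j' h
    · obtain ⟨h1, h2⟩ := h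
      have := hφ3 x.1 x.2 y.2 h2
      simp only
      rw [← h1]
      exact this

/-- the main construction -/
theorem main (g : ℕ) : ∃ k₀ : ℕ, ∀ k, k₀ ≤ k → ∀ p : ℕ,
    ∃ (V : Type) (_ : Fintype V) (G : SimpleGraph V),
      (∀ L : V → Finset ℕ, (∀ v, k ≤ (L v).card) → (univ.biUnion L).card ≤ p →
        ∃ φ : V → ℕ, (∀ v, φ v ∈ L v) ∧ ∀ u v, G.Adj u v → φ u ≠ φ v) ∧
      ¬ ∀ L : V → Finset ℕ, (∀ v, k + g ≤ (L v).card) →
        ∃ φ : V → ℕ, (∀ v, φ v ∈ L v) ∧ ∀ u v, G.Adj u v → φ u ≠ φ v := by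
  classical
  obtain ⟨n, hn⟩ : ∃ n, n = 50 * (3 * Fintype.card (Cell g) ^ 2 + 12 * (2 * g + 1)) + 1 :=
    ⟨_, rfl⟩
  refine ⟨(3 * (2 * g + 1) + n) + 2 * Fintype.card (Tm g n) + 2, fun k hk p => ?_⟩
  obtain ⟨r, rfl⟩ : ∃ r, k = r + (3 * (2 * g + 1) + n) :=
    ⟨k - (3 * (2 * g + 1) + n), by omega⟩
  have hr : 1 ≤ r := by omega
  set a := (p + 1) * r with ha
  have har : r ≤ a := by
    rw [ha]
    nlinarith
  let Sub := {T : Finset (Fin a) // T.card = r}
  have hSub : Nonempty Sub := by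
    obtain ⟨T, _, hT⟩ := exists_subset_card_eq (s := (univ : Finset (Fin a))) (n := r)
      (by rw [card_univ, Fintype.card_fin]; exact har)
    exact ⟨⟨T, hT⟩⟩
  obtain ⟨N, hN⟩ : ∃ N, N = 2 * Fintype.card Sub + 3 := ⟨_, rfl⟩
  have : NeZero N := ⟨by omega⟩
  have hodd : Odd N := ⟨Fintype.card Sub + 1, by omega⟩
  have hN1 : (1 : ZMod N) ≠ 0 := by
    have : Fact (1 < N) := ⟨by omega⟩
    exact one_ne_zero
  have hemb : Nonempty (Sub ↪ ZMod N) :=
    Function.Embedding.nonempty_of_card_le (by rw [ZMod.card]; omega)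
  obtain ⟨e⟩ := hemb
  have hsurj := Function.invFun_surjective e.injective
  let ν : ZMod N → Finset (Fin a) := fun t => (Function.invFun e t).1
  have hν : ∀ t, (ν t).card = r := fun t => (Function.invFun e t).2
  refine ⟨_, inferInstance,
    fin g n N a (Fin a → Fin (r + (3 * (2 * g + 1) + n) + g)) ν, ?_, ?_⟩
  · intro L hL hp
    refine fin_choosable g n N a r p hN1 (by omega) _ ν hν ?_ hr ?_ (by omega) L hL hp
    · intro T hT
      obtain ⟨t, ht⟩ := hsurj ⟨T, hT⟩
      exact ⟨t, by simp only [ν, ht]⟩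
    · rw [ha]
      have h1 : p * (r - 1) ≤ p * r := Nat.mul_le_mul_left _ (by omega)
      have h2 : (p + 1) * r = p * r + r := by ring
      omega
  · exact fin_not_choosable g n N a r hN1 hodd ν hν

end Pool.Agent.Y349.KS
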