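import Mathlib

set_option autoImplicit false

/-!
Three tools for the construction in `Pool.Agent.Y349.KS`: greedy list colouring, completing a
coloured block by a clique, and choosing the two colours of a merged class.
-/

namespace Pool.Agent.Y349.KS

open Finset

/-- Greedy list colouring: a proper partial colouring on `S` extends when every vertex outside
`S` has more colours than neighbours. -/
theorem greedy {V : Type*} [Fintype V] [DecidableEq V] (adj : V → V → Prop)
    [DecidableRel adj] (hsymm : ∀ u v, adj u v → adj v u) (hirr : ∀ v, ¬ adj v v)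
    (S : Finset V) (φ0 : V → ℕ) (h0 : ∀ u ∈ S, ∀ v ∈ S, adj u v → φ0 u ≠ φ0 v)
    (A : V → Finset ℕ) (hA : ∀ v, v ∉ S → (univ.filter (adj v)).card < (A v).card) :
    ∃ φ : V → ℕ, (∀ v ∈ S, φ v = φ0 v) ∧ (∀ v, v ∉ S → φ v ∈ A v) ∧
      ∀ u v, adj u v → φ u ≠ φ v := by
  have key : ∀ T : Finset V, ∃ φ : V → ℕ, (∀ v ∈ S, φ v = φ0 v) ∧
      (∀ v ∈ T, v ∉ S → φ v ∈ A v) ∧ ∀ u ∈ S ∪ T, ∀ v ∈ S ∪ T, adj u v → φ u ≠ φ v := by
    intro T
    induction T using Finset.induction_on with
    | empty =>
      refine ⟨φ0, fun _ _ => rfl, fun v hv => absurd hv (notMem_empty v), ?_⟩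
      simpa using h0
    | insert a T ha ih =>
      obtain ⟨φ, h1, h2, h3⟩ := ih
      by_cases haS : a ∈ S
      · refine ⟨φ, h1, ?_, ?_⟩
        · intro v hv hvS
          rcases mem_insert.mp hv with rfl | hv
          · exact absurd haS hvS
          · exact h2 v hv hvS
        · have : S ∪ insert a T = S ∪ T := by
            ext x
            simp only [mem_union, mem_insert]
            constructor
            · rintro (h | rfl | h)
              · exact Or.inl h
              · exact Or.inl haS
              · exact Or.inr h
            · rintro (h | h)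
              · exact Or.inl h
              · exact Or.inr (Or.inr h)
          rw [this]
          exact h3
      · have hc : ∃ c ∈ A a, c ∉ (univ.filter (adj a)).image φ := by
          by_contra hcon
          push Not at hcon
          have : (A a).card ≤ ((univ.filter (adj a)).image φ).card := card_le_card hcon
          exact absurd (hA a haS) (not_lt.mpr (this.trans card_image_le))
        obtain ⟨c, hcA, hcN⟩ := hc
        have hcN' : ∀ v, adj a v → φ v ≠ c := by
          intro v hv he
          exact hcN (mem_image.mpr ⟨v, by simpa using hv, he⟩)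
        refine ⟨Function.update φ a c, ?_, ?_, ?_⟩
        · intro v hv
          have : v ≠ a := by rintro rfl; exact haS hv
          rw [Function.update_of_ne this]
          exact h1 v hv
        · intro v hv hvS
          by_cases hva : v = a
          · subst hva; simpa using hcA
          · rw [Function.update_of_ne hva]
            rcases mem_insert.mp hv with h | h
            · exact absurd h hva
            · exact h2 v h hvS
        · intro u hu v hv huv
          have hmem : ∀ w, w ∈ S ∪ insert a T → w ≠ a → w ∈ S ∪ T := by
            intro w hw hwa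
            simp only [mem_union, mem_insert] at hw ⊢
            tauto
          by_cases hua : u = a
          · by_cases hva : v = a
            · subst hua; subst hva; exact absurd huv (hirr _)
            · subst hua
              rw [Function.update_self, Function.update_of_ne hva]
              exact (hcN' v huv).symm
          · by_cases hva : v = a
            · subst hva
              rw [Function.update_self, Function.update_of_ne hua]
              exact hcN' u (hsymm _ _ huv)
            · rw [Function.update_of_ne hua, Function.update_of_ne hva]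
              exact h3 u (hmem u hu hua) v (hmem v hv hva) huv
  obtain ⟨φ, h1, h2, h3⟩ := key univ
  exact ⟨φ, h1, fun v hv => h2 v (mem_univ v) hv,
    fun u v huv => h3 u (by simp) v (by simp) huv⟩

/-- Greedy choice of objects carrying colours, with disjoint colours for related objects. -/
theorem greedy_choice {ι : Type*} [Fintype ι] [DecidableEq ι] {Γ : Type*} [Nonempty Γ]
    (R : ι → ι → Prop)
    [DecidableRel R] (hsymm : ∀ i j, R i j → R j i) (hirr : ∀ i, ¬ R i i)
    (col : Γ → Finset ℕ) (w : ℕ) (hw : ∀ γ, (col γ).card ≤ w) (good : ι → Γ → Prop) (D : ℕ)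
    (hD : ∀ i, (univ.filter (R i)).card ≤ D)
    (h : ∀ i (F : Finset ℕ), F.card ≤ D * w → ∃ γ, good i γ ∧ Disjoint (col γ) F) :
    ∃ f : ι → Γ, (∀ i, good i (f i)) ∧ ∀ i j, R i j → Disjoint (col (f i)) (col (f j)) := by
  have key : ∀ T : Finset ι, ∃ f : ι → Γ, (∀ i ∈ T, good i (f i)) ∧
      ∀ i ∈ T, ∀ j ∈ T, R i j → Disjoint (col (f i)) (col (f j)) := by
    intro T
    induction T using Finset.induction_on with
    | empty => exact ⟨fun _ => Classical.arbitrary Γ, by simp, by simp⟩
    | insert a T ha ih =>
      obtain ⟨f, h1, h2⟩ := ih
      obtain ⟨γ, hγ, hdis⟩ := h a ((univ.filter (R a)).biUnion fun j => col (f j)) (by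
        refine (card_biUnion_le_card_mul _ _ w fun j _ => hw _).trans ?_
        exact Nat.mul_le_mul_right _ (hD a))
      have hdis' : ∀ j, R a j → Disjoint (col γ) (col (f j)) := by
        intro j hj
        refine hdis.mono_right ?_
        exact subset_biUnion_of_mem (fun j => col (f j)) (by simpa using hj)
      refine ⟨Function.update f a γ, ?_, ?_⟩
      · intro i hi
        by_cases hia : i = a
        · subst hia; simpa using hγ
        · rw [Function.update_of_ne hia]
          exact h1 i ((mem_insert.mp hi).resolve_left hia)
      · intro i hi j hj hij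
        by_cases hia : i = a
        · by_cases hja : j = a
          · subst hia; subst hja; exact absurd hij (hirr _)
          · subst hia
            rw [Function.update_self, Function.update_of_ne hja]
            exact hdis' j hij
        · by_cases hja : j = a
          · subst hja
            rw [Function.update_self, Function.update_of_ne hia]
            exact (hdis' i (hsymm _ _ hij)).symm
          · rw [Function.update_of_ne hia, Function.update_of_ne hja]
            exact h2 i ((mem_insert.mp hi).resolve_left hia) j
              ((mem_insert.mp hj).resolve_left hja) hij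
  obtain ⟨f, h1, h2⟩ := key univ
  exact ⟨f, fun i => h1 i (mem_univ i), fun i j => h2 i (mem_univ i) j (mem_univ j)⟩

/-- For lists of size at least `m + n` on a clique of `n` vertices there is a set `Λ`, empty or of
size between `n` and `n + M`, such that the clique can be coloured avoiding every set `U` of at
most `M` colours with at most `m` of them in `Λ`. -/
theorem exists_Lam {Q : Type*} [Fintype Q] [DecidableEq Q] (n m M : ℕ)
    (hn : Fintype.card Q = n) (hn2 : 2 * M ≤ n)
    (L : Q → Finset ℕ) (hL : ∀ q, m + n ≤ (L q).card) :
    ∃ Λ : Finset ℕ, (Λ = ∅ ∨ n ≤ Λ.card) ∧ Λ.card ≤ n + M ∧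
      ∀ U : Finset ℕ, U.card ≤ M → (U ∩ Λ).card ≤ m →
        ∃ f : Q → ℕ, Function.Injective f ∧ ∀ q, f q ∈ L q ∧ f q ∉ U := by
  classical
  by_cases h : ∃ S : Finset Q, S.Nonempty ∧ (S.biUnion L).card < S.card + M
  · obtain ⟨S, hS, hlt⟩ := h
    have hSn : S.card ≤ n := hn ▸ card_le_univ S
    obtain ⟨q0, hq0⟩ := hS
    have hbig : m + n ≤ (S.biUnion L).card :=
      (hL q0).trans (card_le_card (subset_biUnion_of_mem L hq0))
    refine ⟨S.biUnion L, Or.inr (by omega), by omega, ?_⟩
    intro U hU hUm
    have hall : ∀ s : Finset Q, s.card ≤ (s.biUnion fun q => L q \ U).card := by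
      intro s
      rcases s.eq_empty_or_nonempty with rfl | hs
      · simp
      by_cases hsS : ∃ q ∈ s, q ∈ S
      · obtain ⟨q, hqs, hqS⟩ := hsS
        have h1 : (L q \ U).card ≤ (s.biUnion fun q => L q \ U).card :=
          card_le_card (subset_biUnion_of_mem (fun q => L q \ U) hqs)
        have h2 : (L q ∩ U).card ≤ (U ∩ S.biUnion L).card := by
          refine card_le_card fun x hx => ?_
          rw [mem_inter] at hx ⊢
          exact ⟨hx.2, mem_biUnion.mpr ⟨q, hqS, hx.1⟩⟩
        have h3 : (L q \ U).card + (L q ∩ U).card = (L q).card := card_sdiff_add_card_inter _ _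
        have h4 := hL q
        have h5 : s.card ≤ n := hn ▸ card_le_univ s
        omega
      · push Not at hsS
        have hdis : Disjoint s S := disjoint_left.mpr fun q hq hq' => hsS q hq hq'
        have h1 : s.card + S.card ≤ n := by
          rw [← card_union_of_disjoint hdis, ← hn]
          exact card_le_univ _
        obtain ⟨q, hq⟩ := hs
        have h2 : (L q \ U).card ≤ (s.biUnion fun q => L q \ U).card :=
          card_le_card (subset_biUnion_of_mem (fun q => L q \ U) hq)
        have h3 : (L q).card - U.card ≤ (L q \ U).card := le_card_sdiff _ _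
        have h4 := hL q
        omega
    obtain ⟨f, hf1, hf2⟩ := (all_card_le_biUnion_card_iff_exists_injective _).mp hall
    exact ⟨f, hf1, fun q => by simpa using hf2 q⟩
  · push Not at h
    refine ⟨∅, Or.inl rfl, by simp, ?_⟩
    intro U hU _
    have hall : ∀ s : Finset Q, s.card ≤ (s.biUnion fun q => L q \ U).card := by
      intro s
      rcases s.eq_empty_or_nonempty with rfl | hs
      · simp
      have h1 := h s hs
      have h2 : (s.biUnion fun q => L q \ U) = s.biUnion L \ U := by
        ext x
        simp only [mem_biUnion, mem_sdiff]
        constructor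
        · rintro ⟨q, hq, hx, hxU⟩
          exact ⟨⟨q, hq, hx⟩, hxU⟩
        · rintro ⟨⟨q, hq, hx⟩, hxU⟩
          exact ⟨q, hq, hx, hxU⟩
      rw [h2]
      have h3 : (s.biUnion L).card - U.card ≤ (s.biUnion L \ U).card := le_card_sdiff _ _
      omega
    obtain ⟨f, hf1, hf2⟩ := (all_card_le_biUnion_card_iff_exists_injective _).mp hall
    exact ⟨f, hf1, fun q => by simpa using hf2 q⟩

end Pool.Agent.Y349.KS
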