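import Mathlib

set_option autoImplicit false

/-!
Choosing the two colours of a merged class: see `pair_lemma`.
-/

namespace Pool.Agent.Y349.KS

open Finset

theorem pick {c : ℕ} {Y A GA F : Finset ℕ} (hY : Y ⊆ A) (h : 2 * c < Y.card)
    (h1 : (A \ GA).card ≤ c) (hF : F.card ≤ c) : ∃ x ∈ Y, x ∈ GA ∧ x ∉ F := by
  by_contra hcon
  push Not at hcon
  have hsub : Y ⊆ (A \ GA) ∪ F := by
    intro x hx
    by_cases hG : x ∈ GA
    · exact mem_union_right _ (hcon x hx hG)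
    · exact mem_union_left _ (mem_sdiff.mpr ⟨hY hx, hG⟩)
  have h2 := (card_le_card hsub).trans (card_union_le _ _)
  omega

theorem pick2 {c : ℕ} {Y A B GA GB F : Finset ℕ} (hYA : Y ⊆ A) (hYB : Y ⊆ B)
    (h : 3 * c < Y.card) (h1 : (A \ GA).card ≤ c) (h2 : (B \ GB).card ≤ c)
    (hF : F.card ≤ c) : ∃ x ∈ Y, x ∈ GA ∧ x ∈ GB ∧ x ∉ F := by
  by_contra hcon
  push Not at hcon
  have hsub : Y ⊆ (A \ GA) ∪ ((B \ GB) ∪ F) := by
    intro x hx
    by_cases hG : x ∈ GA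
    · by_cases hG' : x ∈ GB
      · exact mem_union_right _ (mem_union_right _ (hcon x hx hG hG'))
      · exact mem_union_right _ (mem_union_left _ (mem_sdiff.mpr ⟨hYB hx, hG'⟩))
    · exact mem_union_left _ (mem_sdiff.mpr ⟨hYA hx, hG⟩)
  have h3 := (card_le_card hsub).trans (card_union_le _ _)
  have h4 := card_union_le (B \ GB) F
  omega

theorem pick0 {n c : ℕ} {B GB F : Finset ℕ} (hB : B = ∅ ∨ n ≤ B.card) (hn : 2 * c < n)
    (h2 : (B \ GB).card ≤ c) (hF : F.card ≤ c) : ∃ y, y ∉ F ∧ (B = ∅ ∨ y ∈ GB) := by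
  rcases hB with h | h
  · obtain ⟨y, hy⟩ := Infinite.exists_notMem_finset F
    exact ⟨y, hy, Or.inl h⟩
  · obtain ⟨y, _, hy1, hy2⟩ := pick (Y := B) (A := B) (GA := GB) (F := F) (c := c)
      (Subset.refl B) (by omega) h2 hF
    exact ⟨y, hy2, Or.inr hy1⟩

/-- `x` and `y` are admissible class colours of the two sides. -/
def Adm (A B GA GB F : Finset ℕ) (x y : ℕ) : Prop :=
  x ∉ F ∧ y ∉ F ∧ (A = ∅ ∨ x ∈ GA) ∧ (B = ∅ ∨ y ∈ GB)

/-- The list `X` is served by `x` or by `y`. -/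
def Serve (A B : Finset ℕ) (x y : ℕ) (X : Finset ℕ) : Prop :=
  (x ∈ X ∧ (x ∉ B ∨ x = y)) ∨ (y ∈ X ∧ (y ∉ A ∨ x = y))

theorem card_split (A B X : Finset ℕ) : X.card ≤ (X \ (A ∪ B)).card + (X ∩ (A \ B)).card +
    (X ∩ (B \ A)).card + (X ∩ (A ∩ B)).card := by
  have hsub : X ⊆ (X \ (A ∪ B)) ∪ ((X ∩ (A \ B)) ∪ ((X ∩ (B \ A)) ∪ (X ∩ (A ∩ B)))) := by
    intro x hx
    simp only [mem_union, mem_sdiff, mem_inter]
    tauto
  have h1 := (card_le_card hsub).trans (card_union_le _ _)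
  have h2 := card_union_le (X ∩ (A \ B)) ((X ∩ (B \ A)) ∪ (X ∩ (A ∩ B)))
  have h3 := card_union_le (X ∩ (B \ A)) (X ∩ (A ∩ B))
  omega

theorem Serve.mono {A B : Finset ℕ} {x y : ℕ} {X Y : Finset ℕ} (h : Serve A B x y X)
    (hXY : X ⊆ Y) : Serve A B x y Y := by
  rcases h with ⟨h1, h2⟩ | ⟨h1, h2⟩
  · exact Or.inl ⟨hXY h1, h2⟩
  · exact Or.inr ⟨hXY h1, h2⟩

theorem one_list {n c : ℕ} {A B GA GB F : Finset ℕ} (hA : A = ∅ ∨ n ≤ A.card)
    (hB : B = ∅ ∨ n ≤ B.card) (h1 : (A \ GA).card ≤ c) (h2 : (B \ GB).card ≤ c)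
    (hF : F.card ≤ c) (hn : 3 * c < n) (X : Finset ℕ) (hX : 10 * c < X.card)
    (hXc : (X \ (A ∪ B)).card ≤ c) : ∃ x y, Adm A B GA GB F x y ∧ Serve A B x y X := by
  have hs := card_split A B X
  have hcase : 3 * c < (X ∩ (A \ B)).card ∨ 3 * c < (X ∩ (B \ A)).card ∨
      3 * c < (X ∩ (A ∩ B)).card := by omega
  rcases hcase with h | h | h
  · have hsub : X ∩ (A \ B) ⊆ A := fun x hx => by
      simp only [mem_inter, mem_sdiff] at hx; exact hx.2.1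
    obtain ⟨x, hx, hxG, hxF⟩ := pick (c := c) hsub (by omega) h1 hF
    obtain ⟨y, hyF, hy⟩ := pick0 hB (by omega) h2 hF
    simp only [mem_inter, mem_sdiff] at hx
    exact ⟨x, y, ⟨hxF, hyF, Or.inr hxG, hy⟩, Or.inl ⟨hx.1, Or.inl hx.2.2⟩⟩
  · have hsub : X ∩ (B \ A) ⊆ B := fun x hx => by
      simp only [mem_inter, mem_sdiff] at hx; exact hx.2.1
    obtain ⟨y, hy, hyG, hyF⟩ := pick (c := c) hsub (by omega) h2 hF
    obtain ⟨x, hxF, hx⟩ := pick0 hA (by omega) h1 hF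
    simp only [mem_inter, mem_sdiff] at hy
    exact ⟨x, y, ⟨hxF, hyF, hx, Or.inr hyG⟩, Or.inr ⟨hy.1, Or.inl hy.2.2⟩⟩
  · have hsubA : X ∩ (A ∩ B) ⊆ A := fun x hx => by
      simp only [mem_inter] at hx; exact hx.2.1
    have hsubB : X ∩ (A ∩ B) ⊆ B := fun x hx => by
      simp only [mem_inter] at hx; exact hx.2.2
    obtain ⟨x, hx, hxG, hxG', hxF⟩ := pick2 (c := c) hsubA hsubB h h1 h2 hF
    simp only [mem_inter] at hx
    exact ⟨x, x, ⟨hxF, hxF, Or.inr hxG, Or.inr hxG'⟩, Or.inl ⟨hx.1, Or.inr rfl⟩⟩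

theorem two_lists {n c : ℕ} {A B GA GB F : Finset ℕ} (hA : A = ∅ ∨ n ≤ A.card)
    (hB : B = ∅ ∨ n ≤ B.card) (hA' : A.card ≤ n + c) (hB' : B.card ≤ n + c)
    (h1 : (A \ GA).card ≤ c) (h2 : (B \ GB).card ≤ c)
    (hF : F.card ≤ c) (hn : 50 * c < n) (X Y : Finset ℕ) (hX : n ≤ X.card) (hY : n ≤ Y.card)
    (hXc : (X \ (A ∪ B)).card ≤ c) (hYc : (Y \ (A ∪ B)).card ≤ c) :
    ∃ x y, Adm A B GA GB F x y ∧ Serve A B x y X ∧ Serve A B x y Y := by
  by_cases hXY : 10 * c < (X ∩ Y).card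
  · have h3 : ((X ∩ Y) \ (A ∪ B)).card ≤ c :=
      (card_le_card (sdiff_subset_sdiff inter_subset_left (Subset.refl _))).trans hXc
    obtain ⟨x, y, had, hs⟩ := one_list hA hB h1 h2 hF (by omega) (X ∩ Y) hXY h3
    exact ⟨x, y, had, hs.mono inter_subset_left, hs.mono inter_subset_right⟩
  push Not at hXY
  -- the two lists are nearly disjoint
  have hU : (X ∪ Y).card + (X ∩ Y).card = X.card + Y.card := card_union_add_card_inter _ _
  have hUc : (X ∪ Y).card ≤ (A ∪ B).card + 2 * c := by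
    have hsub : X ∪ Y ⊆ (A ∪ B) ∪ ((X \ (A ∪ B)) ∪ (Y \ (A ∪ B))) := by
      intro x hx
      simp only [mem_union, mem_sdiff] at hx ⊢
      tauto
    have h3 := (card_le_card hsub).trans (card_union_le _ _)
    have h4 := card_union_le (X \ (A ∪ B)) (Y \ (A ∪ B))
    omega
  have hAB : (A ∪ B).card + (A ∩ B).card = A.card + B.card := card_union_add_card_inter _ _
  have hM : (A ∩ B).card ≤ 14 * c := by omega
  have hXs := card_split A B X
  have hYs := card_split A B Y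
  have hXM : (X ∩ (A ∩ B)).card ≤ 14 * c := (card_le_card inter_subset_right).trans hM
  have hYM : (Y ∩ (A ∩ B)).card ≤ 14 * c := (card_le_card inter_subset_right).trans hM
  have hsum : ∀ P : Finset ℕ, P.card ≤ n + c →
      (X ∩ P).card + (Y ∩ P).card ≤ n + 11 * c := by
    intro P hP
    have h3 : ((X ∩ P) ∪ (Y ∩ P)).card + ((X ∩ P) ∩ (Y ∩ P)).card
        = (X ∩ P).card + (Y ∩ P).card := card_union_add_card_inter _ _
    have h4 : ((X ∩ P) ∪ (Y ∩ P)).card ≤ P.card :=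
      card_le_card (union_subset inter_subset_right inter_subset_right)
    have h5 : ((X ∩ P) ∩ (Y ∩ P)).card ≤ (X ∩ Y).card :=
      card_le_card (inter_subset_inter inter_subset_left inter_subset_left)
    omega
  have hα := hsum (A \ B) ((card_le_card sdiff_subset).trans hA')
  have hβ := hsum (B \ A) ((card_le_card sdiff_subset).trans hB')
  have hcase : (3 * c < (X ∩ (A \ B)).card ∧ 3 * c < (Y ∩ (B \ A)).card) ∨
      (3 * c < (Y ∩ (A \ B)).card ∧ 3 * c < (X ∩ (B \ A)).card) := by omega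
  have hsubA : ∀ Z : Finset ℕ, Z ∩ (A \ B) ⊆ A := fun Z x hx => by
    simp only [mem_inter, mem_sdiff] at hx; exact hx.2.1
  have hsubB : ∀ Z : Finset ℕ, Z ∩ (B \ A) ⊆ B := fun Z x hx => by
    simp only [mem_inter, mem_sdiff] at hx; exact hx.2.1
  rcases hcase with ⟨ha, hb⟩ | ⟨ha, hb⟩
  · obtain ⟨x, hx, hxG, hxF⟩ := pick (c := c) (hsubA X) (by omega) h1 hF
    obtain ⟨y, hy, hyG, hyF⟩ := pick (c := c) (hsubB Y) (by omega) h2 hF
    simp only [mem_inter, mem_sdiff] at hx hy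
    exact ⟨x, y, ⟨hxF, hyF, Or.inr hxG, Or.inr hyG⟩, Or.inl ⟨hx.1, Or.inl hx.2.2⟩,
      Or.inr ⟨hy.1, Or.inl hy.2.2⟩⟩
  · obtain ⟨x, hx, hxG, hxF⟩ := pick (c := c) (hsubA Y) (by omega) h1 hF
    obtain ⟨y, hy, hyG, hyF⟩ := pick (c := c) (hsubB X) (by omega) h2 hF
    simp only [mem_inter, mem_sdiff] at hx hy
    exact ⟨x, y, ⟨hxF, hyF, Or.inr hxG, Or.inr hyG⟩, Or.inr ⟨hy.1, Or.inl hy.2.2⟩,
      Or.inl ⟨hx.1, Or.inl hx.2.2⟩⟩

/-- At most two hard lists of size at least `n` can be served by admissible class colours. -/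
theorem pair_lemma {σ : Type*} [DecidableEq σ] {n c : ℕ} {A B GA GB F : Finset ℕ}
    (hA : A = ∅ ∨ n ≤ A.card)
    (hB : B = ∅ ∨ n ≤ B.card) (hA' : A.card ≤ n + c) (hB' : B.card ≤ n + c)
    (h1 : (A \ GA).card ≤ c) (h2 : (B \ GB).card ≤ c)
    (hF : F.card ≤ c) (hn : 50 * c < n) (S : Finset σ) (hS : S.card ≤ 2) (L : σ → Finset ℕ)
    (hL : ∀ s ∈ S, n ≤ (L s).card) (hLc : ∀ s ∈ S, (L s \ (A ∪ B)).card ≤ c) :
    ∃ x y, Adm A B GA GB F x y ∧ ∀ s ∈ S, Serve A B x y (L s) := by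
  have hS' : S.card = 0 ∨ S.card = 1 ∨ S.card = 2 := by omega
  rcases hS' with h | h | h
  · obtain ⟨x, hxF, hx⟩ := pick0 hA (by omega) h1 hF
    obtain ⟨y, hyF, hy⟩ := pick0 hB (by omega) h2 hF
    refine ⟨x, y, ⟨hxF, hyF, hx, hy⟩, ?_⟩
    intro s hs
    rw [card_eq_zero] at h
    subst h
    exact absurd hs (notMem_empty _)
  · obtain ⟨s, rfl⟩ := card_eq_one.mp h
    have h3 := hL s (mem_singleton_self s)
    obtain ⟨x, y, had, hs⟩ := one_list hA hB h1 h2 hF (by omega) (L s) (by omega)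
      (hLc s (mem_singleton_self s))
    exact ⟨x, y, had, fun t ht => by rw [mem_singleton.mp ht]; exact hs⟩
  · obtain ⟨s, t, _, rfl⟩ := card_eq_two.mp h
    obtain ⟨x, y, had, hs, ht⟩ := two_lists hA hB hA' hB' h1 h2 hF hn (L s) (L t)
      (hL s (by simp)) (hL t (by simp)) (hLc s (by simp)) (hLc t (by simp))
    refine ⟨x, y, had, fun u hu => ?_⟩
    rcases mem_insert.mp hu with rfl | hu
    · exact hs
    · rw [mem_singleton.mp hu]; exact ht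

end Pool.Agent.Y349.KS
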