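import Mathlib

set_option autoImplicit false

/-!
The ring of blocks: each block is a grid of cells (two cells adjacent when they differ in row and
column) joined to a clique; consecutive blocks share pairs of cells, which are row pairs of one
block and column pairs of the other. An odd ring has no proper colouring with few colours.
-/

namespace Pool.Agent.Y349.KS

open Finset

section half

variable {I J K : Type*}

/-- a colour class is contained in a line -/
theorem line_of_proper (ψ : I × J → ℕ) (hψ : ∀ p q : I × J, p.1 ≠ q.1 → p.2 ≠ q.2 → ψ p ≠ ψ q)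
    (x : I × J) : (∀ p, ψ p = ψ x → p.1 = x.1) ∨ (∀ p, ψ p = ψ x → p.2 = x.2) := by
  by_contra hcon
  push Not at hcon
  obtain ⟨⟨p, hp, hp1⟩, ⟨q, hq, hq2⟩⟩ := hcon
  have h1 : p.2 = x.2 := by
    by_contra h
    exact hψ p x hp1 h hp
  have h2 : q.1 = x.1 := by
    by_contra h
    exact hψ q x h hq2 hq
  refine hψ p q ?_ ?_ (hp.trans hq.symm)
  · rw [h2]; exact hp1
  · rw [h1]; exact fun h => hq2 h.symm

theorem all_rows_or_cols (ψ : I × J → ℕ)
    (hψ : ∀ p q : I × J, p.1 ≠ q.1 → p.2 ≠ q.2 → ψ p ≠ ψ q) :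
    (∀ i, ∃ x : I × J, ∀ p, ψ p = ψ x → p.1 = i) ∨
      (∀ j, ∃ x : I × J, ∀ p, ψ p = ψ x → p.2 = j) := by
  by_contra hcon
  push Not at hcon
  obtain ⟨⟨i, hi⟩, ⟨j, hj⟩⟩ := hcon
  rcases line_of_proper ψ hψ (i, j) with h | h
  · obtain ⟨p, hp, hp'⟩ := hi (i, j)
    exact hp' (h p hp)
  · obtain ⟨p, hp, hp'⟩ := hj (i, j)
    exact hp' (h p hp)

theorem half [Fintype I] [Fintype J] [Fintype K] (ψ : I × J → ℕ)
    (hψ : ∀ p q : I × J, p.1 ≠ q.1 → p.2 ≠ q.2 → ψ p ≠ ψ q) (g : ℕ)
    (hc : (univ.image ψ).card ≤ Fintype.card I + g)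
    (hr : ∀ i, ∃ x : I × J, ∀ p, ψ p = ψ x → p.1 = i)
    (a b c d : K → I × J) (hab : ∀ k, (a k).1 = (b k).1) (hcd : ∀ k, (c k).1 ≠ (d k).1)
    (haa : ∀ k l, k ≠ l → (a k).1 ≠ (a l).1 ∧ (a k).2 ≠ (a l).2)
    (hbb : ∀ k l, k ≠ l → (b k).1 ≠ (b l).1 ∧ (b k).2 ≠ (b l).2)
    (hab2 : ∀ k l, k ≠ l → (a k).1 ≠ (b l).1 ∧ (a k).2 ≠ (b l).2)
    (hcc : ∀ k l, k ≠ l → (c k).1 ≠ (c l).1 ∧ (c k).2 ≠ (c l).2) :
    (univ.filter fun k => ψ (a k) ≠ ψ (b k)).card ≤ g ∧
      (univ.filter fun k => ψ (c k) = ψ (d k)).card ≤ g := by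
  choose x hx using hr
  have hxinj : Function.Injective fun i => ψ (x i) := by
    intro i i' h
    have h1 := hx i (x i) rfl
    have h2 := hx i' (x i) h
    exact h1.symm.trans h2
  set E : Finset ℕ := univ.image ψ \ univ.image fun i => ψ (x i) with hE
  have hEc : E.card ≤ g := by
    have h1 : (univ.image fun i => ψ (x i)).card = Fintype.card I := by
      rw [card_image_of_injective _ hxinj, card_univ]
    have h2 : (univ.image fun i => ψ (x i)) ⊆ univ.image ψ := by
      intro y hy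
      obtain ⟨i, _, rfl⟩ := mem_image.mp hy
      exact mem_image_of_mem _ (mem_univ _)
    have h3 := card_sdiff_of_subset h2
    rw [← hE] at h3
    omega
  have memE : ∀ p : I × J, (∀ i, ψ p ≠ ψ (x i)) → ψ p ∈ E := by
    intro p hp
    rw [hE, mem_sdiff]
    refine ⟨mem_image_of_mem _ (mem_univ _), ?_⟩
    intro hy
    obtain ⟨i, _, hi⟩ := mem_image.mp hy
    exact hp i hi.symm
  constructor
  · -- unequal row pairs
    have hex : ∀ k, ∃ y, ψ (a k) ≠ ψ (b k) → (y = a k ∨ y = b k) ∧ ψ y ∈ E := by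
      intro k
      by_cases h1 : ψ (a k) = ψ (x (a k).1)
      · refine ⟨b k, fun hk => ⟨Or.inr rfl, memE _ ?_⟩⟩
        intro i hi
        have h2 := hx i (b k) hi
        subst h2
        rw [← hab k] at hi
        exact hk (h1.trans hi.symm)
      · refine ⟨a k, fun hk => ⟨Or.inl rfl, memE _ ?_⟩⟩
        intro i hi
        have h2 := hx i (a k) hi
        subst h2
        exact h1 hi
    choose y hy using hex
    refine le_trans ?_ hEc
    refine card_le_card_of_injOn (fun k => ψ (y k)) ?_ ?_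
    · intro k hk
      exact (hy k (by simpa using hk)).2
    · intro k hk l hl hkl
      by_contra hne
      have hk' := (hy k (by simpa using hk)).1
      have hl' := (hy l (by simpa using hl)).1
      have hadj : (y k).1 ≠ (y l).1 ∧ (y k).2 ≠ (y l).2 := by
        rcases hk' with h | h <;> rcases hl' with h' | h' <;> rw [h, h']
        · exact haa k l hne
        · exact hab2 k l hne
        · exact ⟨(hab2 l k (Ne.symm hne)).1.symm, (hab2 l k (Ne.symm hne)).2.symm⟩
        · exact hbb k l hne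
      exact hψ _ _ hadj.1 hadj.2 hkl
  · refine le_trans ?_ hEc
    refine card_le_card_of_injOn (fun k => ψ (c k)) ?_ ?_
    · intro k hk
      have hk' : ψ (c k) = ψ (d k) := by simpa using hk
      refine memE _ ?_
      intro i hi
      have h1 := hx i (c k) hi
      have h2 := hx i (d k) (hk'.symm.trans hi)
      exact hcd k (h1.trans h2.symm)
    · intro k hk l hl hkl
      by_contra hne
      have hadj := hcc k l hne
      exact hψ _ _ hadj.1 hadj.2 hkl

end half

/-- rows of a block -/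
abbrev Row (g : ℕ) : Type := Fin (2 * g + 1) ⊕ (Fin (2 * g + 1) × Bool)
/-- columns of a block -/
abbrev Col (g : ℕ) : Type := (Fin (2 * g + 1) × Bool) ⊕ Fin (2 * g + 1)
/-- cells of a block -/
abbrev Cell (g : ℕ) : Type := Row g × Col g

/-- left shared cells -/
def lc {g : ℕ} (s : Fin (2 * g + 1) × Bool) : Cell g := (Sum.inl s.1, Sum.inl s)
/-- right shared cells -/
def rc {g : ℕ} (s : Fin (2 * g + 1) × Bool) : Cell g := (Sum.inr s, Sum.inr s.1)

theorem card_row (g : ℕ) : Fintype.card (Row g) = 3 * (2 * g + 1) := by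
  simp [Row]; ring

theorem card_col (g : ℕ) : Fintype.card (Col g) = 3 * (2 * g + 1) := by
  simp [Col]; ring

theorem block {g : ℕ} (ψ : Cell g → ℕ)
    (hψ : ∀ p q : Cell g, p.1 ≠ q.1 → p.2 ≠ q.2 → ψ p ≠ ψ q)
    (hc : (univ.image ψ).card ≤ 3 * (2 * g + 1) + g) :
    ((univ.filter fun k => ψ (lc (k, false)) ≠ ψ (lc (k, true))).card ≤ g ∧
      (univ.filter fun k => ψ (rc (k, false)) = ψ (rc (k, true))).card ≤ g) ∨
    ((univ.filter fun k => ψ (rc (k, false)) ≠ ψ (rc (k, true))).card ≤ g ∧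
      (univ.filter fun k => ψ (lc (k, false)) = ψ (lc (k, true))).card ≤ g) := by
  rcases all_rows_or_cols ψ hψ with h | h
  · left
    refine half ψ hψ g (by rw [card_row]; exact hc) h _ _ _ _ ?_ ?_ ?_ ?_ ?_ ?_
    · intro k; rfl
    · intro k; simp [rc]
    · intro k l hkl; simpa [lc] using hkl
    · intro k l hkl; simpa [lc] using hkl
    · intro k l hkl; simpa [lc] using hkl
    · intro k l hkl; simpa [rc] using hkl
  · right
    have hψ' : ∀ p q : Col g × Row g, p.1 ≠ q.1 → p.2 ≠ q.2 →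
        (ψ ∘ Prod.swap) p ≠ (ψ ∘ Prod.swap) q := fun p q h1 h2 => hψ _ _ h2 h1
    have hc' : (univ.image (ψ ∘ Prod.swap : Col g × Row g → ℕ)).card ≤
        Fintype.card (Col g) + g := by
      rw [card_col]
      refine le_trans (card_le_card ?_) hc
      intro y hy
      obtain ⟨p, _, rfl⟩ := mem_image.mp hy
      exact mem_image_of_mem _ (mem_univ _)
    have hr' : ∀ j, ∃ x : Col g × Row g, ∀ p, (ψ ∘ Prod.swap) p = (ψ ∘ Prod.swap) x →
        p.1 = j := by
      intro j
      obtain ⟨x, hx⟩ := h j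
      refine ⟨x.swap, fun p hp => hx p.swap ?_⟩
      simpa using hp
    have := half (K := Fin (2 * g + 1)) (ψ ∘ Prod.swap) hψ' g hc' hr'
      (fun k => (rc (k, false)).swap) (fun k => (rc (k, true)).swap)
      (fun k => (lc (k, false)).swap) (fun k => (lc (k, true)).swap)
      (by intro k; rfl) (by intro k; simp [lc])
      (by intro k l hkl; simpa [rc] using hkl) (by intro k l hkl; simpa [rc] using hkl)
      (by intro k l hkl; simpa [rc] using hkl) (by intro k l hkl; simpa [lc] using hkl)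
    simpa using this

/-- the vertices of one block: cells and clique -/
abbrev Tm (g n : ℕ) : Type := Cell g ⊕ Fin n

/-- adjacency in one block -/
def tadj {g n : ℕ} : Tm g n → Tm g n → Prop
  | Sum.inl p, Sum.inl q => p.1 ≠ q.1 ∧ p.2 ≠ q.2
  | Sum.inl _, Sum.inr _ => True
  | Sum.inr _, Sum.inl _ => True
  | Sum.inr q, Sum.inr q' => q ≠ q'

theorem tadj_symm {g n : ℕ} (p q : Tm g n) (h : tadj p q) : tadj q p := by
  rcases p with p | p <;> rcases q with q | q <;> simp only [tadj] at h ⊢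
  · exact ⟨h.1.symm, h.2.symm⟩
  · exact h.symm

theorem tadj_irrefl {g n : ℕ} (p : Tm g n) : ¬ tadj p p := by
  rcases p with p | p <;> simp [tadj]

/-- the vertices of the ring -/
abbrev Vt (g n N : ℕ) : Type := ZMod N × Tm g n

/-- the place of a cell of block `t` in the ring: a left cell belongs to the block `t - 1` -/
def emb {g : ℕ} {N : ℕ} (t : ZMod N) : Cell g → ZMod N × Cell g
  | (Sum.inl k, Sum.inl s) => if k = s.1 then (t - 1, rc s) else (t, (Sum.inl k, Sum.inl s))
  | (Sum.inl k, Sum.inr j) => (t, (Sum.inl k, Sum.inr j))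
  | (Sum.inr i, j) => (t, (Sum.inr i, j))

theorem emb_lc {g N : ℕ} (t : ZMod N) (s : Fin (2 * g + 1) × Bool) :
    emb t (lc s) = (t - 1, rc s) := by
  simp [emb, lc]

theorem emb_rc {g N : ℕ} (t : ZMod N) (s : Fin (2 * g + 1) × Bool) :
    emb t (rc s) = (t, rc s) := by
  simp [emb, rc]

/-- a cell is a left cell or stays in its block -/
theorem emb_cases {g N : ℕ} (t : ZMod N) (p : Cell g) :
    (∃ s, p = lc s ∧ emb t p = (t - 1, rc s)) ∨ ((∀ s, p ≠ lc s) ∧ emb t p = (t, p)) := by
  rcases p with ⟨k | i, s | j⟩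
  · by_cases h : k = s.1
    · left
      refine ⟨s, ?_, ?_⟩
      · simp [lc, h]
      · simp [emb, h]
    · right
      refine ⟨?_, ?_⟩
      · intro s' hs'
        simp only [lc, Prod.mk.injEq, Sum.inl.injEq] at hs'
        exact h (by rw [hs'.1, hs'.2])
      · simp [emb, h]
  · right
    refine ⟨?_, rfl⟩
    intro s' hs'
    simp [lc] at hs'
  · right
    refine ⟨?_, rfl⟩
    intro s' hs'
    simp [lc] at hs'
  · right
    refine ⟨?_, rfl⟩
    intro s' hs'
    simp [lc] at hs'

theorem lc_inj {g : ℕ} {s s' : Fin (2 * g + 1) × Bool} (h : lc s = lc s') : s = s' := by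
  simp only [lc, Prod.mk.injEq, Sum.inl.injEq] at h
  exact h.2

theorem rc_inj {g : ℕ} {s s' : Fin (2 * g + 1) × Bool} (h : rc s = rc s') : s = s' := by
  simp only [rc, Prod.mk.injEq, Sum.inr.injEq] at h
  exact h.1

theorem emb_inj {g N : ℕ} (hN : (1 : ZMod N) ≠ 0) (t : ZMod N) {p q : Cell g}
    (h : emb t p = emb t q) : p = q := by
  have ht : t - 1 ≠ t := by
    intro h
    apply hN
    have : t - (t - 1) = t - t := by rw [h]
    simpa using this
  rcases emb_cases t p with ⟨s, hp, hp'⟩ | ⟨_, hp'⟩ <;>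
    rcases emb_cases t q with ⟨s', hq, hq'⟩ | ⟨_, hq'⟩ <;> rw [hp', hq'] at h
  · rw [hp, hq]
    rw [rc_inj (Prod.mk.inj h).2]
  · exact absurd (Prod.mk.inj h).1 ht
  · exact absurd (Prod.mk.inj h).1.symm ht
  · exact (Prod.mk.inj h).2

/-- the place in the ring of a vertex of block `t` -/
def embV {g n N : ℕ} (t : ZMod N) : Tm g n → Vt g n N
  | Sum.inl p => ((emb t p).1, Sum.inl (emb t p).2)
  | Sum.inr q => (t, Sum.inr q)

theorem embV_inj {g n N : ℕ} (hN : (1 : ZMod N) ≠ 0) (t : ZMod N) {p q : Tm g n}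
    (h : embV t p = embV t q) : p = q := by
  rcases p with p | p <;> rcases q with q | q <;> simp only [embV, Prod.mk.injEq] at h
  · rw [emb_inj hN t (Prod.ext h.1 (Sum.inl.inj h.2))]
  · exact absurd h.2 (by simp)
  · exact absurd h.2 (by simp)
  · rw [Sum.inr.inj h.2]

theorem embV_fst {g n N : ℕ} (t : ZMod N) (p : Tm g n) :
    (embV t p).1 = t - 1 ∨ (embV t p).1 = t := by
  rcases p with p | p
  · rcases emb_cases t p with ⟨s, _, hp'⟩ | ⟨_, hp'⟩
    · left; simp [embV, hp']
    · right; simp [embV, hp']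
  · right; rfl

/-- the ring of `N` blocks -/
def ring (g n N : ℕ) : SimpleGraph (Vt g n N) where
  Adj u v := u ≠ v ∧ ∃ (t : ZMod N) (p q : Tm g n), tadj p q ∧ embV t p = u ∧ embV t q = v
  symm := ⟨by
    rintro u v ⟨h, t, p, q, hpq, hp, hq⟩
    exact ⟨h.symm, t, q, p, tadj_symm p q hpq, hq, hp⟩⟩
  loopless := ⟨fun u h => h.1 rfl⟩

theorem ring_adj_of_tadj {g n N : ℕ} (hN : (1 : ZMod N) ≠ 0) (t : ZMod N) {p q : Tm g n}
    (h : tadj p q) : (ring g n N).Adj (embV t p) (embV t q) := by
  refine ⟨?_, t, p, q, h, rfl, rfl⟩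
  intro he
  have := embV_inj hN t he
  subst this
  exact tadj_irrefl _ h

/-- the ring with an odd number of blocks has no proper colouring with `3(2g+1) + n + g`
colours -/
theorem ring_not_colorable (g n N : ℕ) (hN1 : (1 : ZMod N) ≠ 0) (hN : Odd N)
    (φ : Vt g n N → ℕ) (hφ : ∀ v, φ v < 3 * (2 * g + 1) + n + g)
    (hp : ∀ u v, (ring g n N).Adj u v → φ u ≠ φ v) : False := by
  -- the number of equal pairs at junction `t`
  let eq : ZMod N → ℕ := fun t =>
    (univ.filter fun k => φ (t, Sum.inl (rc (k, false))) = φ (t, Sum.inl (rc (k, true)))).card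
  let ne : ZMod N → ℕ := fun t =>
    (univ.filter fun k => φ (t, Sum.inl (rc (k, false))) ≠ φ (t, Sum.inl (rc (k, true)))).card
  have hsum : ∀ t, eq t + ne t = 2 * g + 1 := by
    intro t
    have := card_filter_add_card_filter_not (s := (univ : Finset (Fin (2 * g + 1))))
      (fun k => φ (t, Sum.inl (rc (k, false))) = φ (t, Sum.inl (rc (k, true))))
    simpa [eq, ne] using this
  have hblock : ∀ t, (ne (t - 1) ≤ g ∧ eq t ≤ g) ∨ (ne t ≤ g ∧ eq (t - 1) ≤ g) := by
    intro t
    let ψ : Cell g → ℕ := fun p => φ (embV t (Sum.inl p))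
    have hψ : ∀ p q : Cell g, p.1 ≠ q.1 → p.2 ≠ q.2 → ψ p ≠ ψ q := by
      intro p q h1 h2
      exact hp _ _ (ring_adj_of_tadj hN1 t (p := Sum.inl p) (q := Sum.inl q) ⟨h1, h2⟩)
    have hc : (univ.image ψ).card ≤ 3 * (2 * g + 1) + g := by
      let χ : Fin n → ℕ := fun q => φ (embV t (Sum.inr q))
      have hχ : Function.Injective χ := by
        intro q q' h
        by_contra hne
        exact hp _ _ (ring_adj_of_tadj hN1 t (p := Sum.inr q) (q := Sum.inr q') hne) h
      have hdis : Disjoint (univ.image ψ) (univ.image χ) := by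
        rw [disjoint_left]
        intro y hy hy'
        obtain ⟨p, _, rfl⟩ := mem_image.mp hy
        obtain ⟨q, _, hq⟩ := mem_image.mp hy'
        exact hp _ _ (ring_adj_of_tadj hN1 t (p := Sum.inr q) (q := Sum.inl p) trivial) hq
      have hsub : univ.image ψ ∪ univ.image χ ⊆ range (3 * (2 * g + 1) + n + g) := by
        intro y hy
        rw [mem_range]
        rcases mem_union.mp hy with h | h
        · obtain ⟨p, _, rfl⟩ := mem_image.mp h
          exact hφ _
        · obtain ⟨p, _, rfl⟩ := mem_image.mp h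
          exact hφ _
      have h1 := card_le_card hsub
      rw [card_union_of_disjoint hdis, card_image_of_injective _ hχ, card_range, card_univ,
        Fintype.card_fin] at h1
      omega
    have hl : ∀ s, ψ (lc s) = φ (t - 1, Sum.inl (rc s)) := by
      intro s
      simp only [ψ, embV, emb_lc]
    have hr : ∀ s, ψ (rc s) = φ (t, Sum.inl (rc s)) := by
      intro s
      simp only [ψ, embV, emb_rc]
    have := block ψ hψ hc
    simp only [hl, hr] at this
    exact this
  have hstep : ∀ t, (g + 1 ≤ eq t ↔ ¬ g + 1 ≤ eq (t - 1)) := by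
    intro t
    have h1 := hsum t
    have h2 := hsum (t - 1)
    have h3 := hblock t
    omega
  have heven : ∀ j : ℕ, (g + 1 ≤ eq ((2 * j : ℕ) : ZMod N) ↔ g + 1 ≤ eq 0) := by
    intro j
    induction j with
    | zero => simp
    | succ j ih =>
      have h1 := hstep ((2 * (j + 1) : ℕ) : ZMod N)
      have h2 := hstep (((2 * (j + 1) : ℕ) : ZMod N) - 1)
      have h3 : ((2 * (j + 1) : ℕ) : ZMod N) - 1 - 1 = ((2 * j : ℕ) : ZMod N) := by
        push_cast; ring
      rw [h3] at h2
      rw [h1, h2, not_not]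
      exact ih
  obtain ⟨j, hj⟩ := hN
  have h1 := hstep ((2 * j + 1 : ℕ) : ZMod N)
  have h2 : ((2 * j + 1 : ℕ) : ZMod N) = 0 := by
    rw [← hj]; exact ZMod.natCast_self N
  have h3 : ((2 * j + 1 : ℕ) : ZMod N) - 1 = ((2 * j : ℕ) : ZMod N) := by
    push_cast; ring
  rw [h3, h2, heven j] at h1
  tauto

/-- every vertex has at most `2 |Tm|` neighbours -/
theorem ring_degree (g n N : ℕ) [NeZero N] [DecidableRel (ring g n N).Adj] (v : Vt g n N) :
    (univ.filter ((ring g n N).Adj v)).card ≤ 2 * Fintype.card (Tm g n) := by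
  classical
  have hsub : univ.filter ((ring g n N).Adj v) ⊆
      (univ.image (embV (g := g) (n := n) v.1)) ∪ (univ.image (embV (g := g) (n := n) (v.1 + 1)))
      := by
    intro u hu
    obtain ⟨_, t, p, q, _, hp, hq⟩ := (mem_filter.mp hu).2
    rcases embV_fst t p with h | h
    · rw [hp] at h
      refine mem_union_right _ (mem_image.mpr ⟨q, mem_univ _, ?_⟩)
      rw [h, sub_add_cancel]; exact hq
    · rw [hp] at h
      refine mem_union_left _ (mem_image.mpr ⟨q, mem_univ _, ?_⟩)
      rw [h]; exact hq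
  refine (card_le_card hsub).trans ((card_union_le _ _).trans ?_)
  have h1 : ∀ t : ZMod N, (univ.image (embV (g := g) (n := n) t)).card ≤
      Fintype.card (Tm g n) := fun t => card_image_le.trans (le_of_eq card_univ)
  exact (add_le_add (h1 _) (h1 _)).trans (le_of_eq (two_mul _).symm)

end Pool.Agent.Y349.KS
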