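import Pool.Agent.Y349.KS.Basic
import Pool.Agent.Y349.KS.PairL
import Pool.Agent.Y349.KS.Ring

set_option autoImplicit false

/-!
Cutting the ring at a block leaves a chain of blocks which can be coloured from all lists of size
`3(2g+1) + n`, when `n` is large compared with `g`.
-/

namespace Pool.Agent.Y349.KS

open Finset

/-- indices of the shared cells of a junction -/
abbrev Sh (g : ℕ) : Type := Fin (2 * g + 1) × Bool

/-- class of a row -/
def clr {g : ℕ} : Row g → Bool × Sh g
  | Sum.inl k => (false, (k, false))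
  | Sum.inr s => (true, s)

/-- class of a column -/
def clc {g : ℕ} : Col g → Bool × Sh g
  | Sum.inl s => (false, s)
  | Sum.inr k => (true, (k, false))

theorem clr_inj {g : ℕ} {i j : Row g} (h : clr i = clr j) : i = j := by
  rcases i with i | i <;> rcases j with j | j <;> simp [clr] at h ⊢ <;> exact h

theorem clc_inj {g : ℕ} {i j : Col g} (h : clc i = clc j) : i = j := by
  rcases i with i | i <;> rcases j with j | j <;> simp [clc] at h ⊢ <;> exact h

/-- class of a cell, by rows or by columns; the first entry tells whether the class is a right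
class -/
def cl {g : ℕ} (ty : Bool) (p : Cell g) : Bool × Sh g :=
  if ty = true then clr p.1 else clc p.2

theorem cl_ne {g : ℕ} (ty : Bool) {p q : Cell g} (h1 : p.1 ≠ q.1) (h2 : p.2 ≠ q.2) :
    cl ty p ≠ cl ty q := by
  cases ty
  · intro h
    simp only [cl] at h
    exact h2 (clc_inj (by simpa using h))
  · intro h
    simp only [cl] at h
    exact h1 (clr_inj (by simpa using h))

theorem card_image_cl {g : ℕ} (ty : Bool) :
    (univ.image (cl (g := g) ty)).card ≤ 3 * (2 * g + 1) := by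
  cases ty
  · have : univ.image (cl (g := g) false) ⊆ univ.image (clc (g := g)) := by
      intro y hy
      obtain ⟨p, _, rfl⟩ := mem_image.mp hy
      exact mem_image.mpr ⟨p.2, mem_univ _, by simp [cl]⟩
    refine (card_le_card this).trans (card_image_le.trans ?_)
    rw [card_univ, card_col]
  · have : univ.image (cl (g := g) true) ⊆ univ.image (clr (g := g)) := by
      intro y hy
      obtain ⟨p, _, rfl⟩ := mem_image.mp hy
      exact mem_image.mpr ⟨p.1, mem_univ _, by simp [cl]⟩
    refine (card_le_card this).trans (card_image_le.trans ?_)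
    rw [card_univ, card_row]

/-- the class index of a shared cell -/
def oj {g : ℕ} (κ : Bool) (s : Sh g) : Sh g := if κ = true then (s.1, false) else s

theorem cl_lc {g : ℕ} (κ : Bool) (s : Sh g) : cl κ (lc s) = (false, oj κ s) := by
  cases κ <;> simp [cl, lc, clr, clc, oj]

theorem cl_rc {g : ℕ} (κ : Bool) (s : Sh g) : cl (!κ) (rc s) = (true, oj κ s) := by
  cases κ <;> simp [cl, rc, clr, clc, oj]

section ring

variable {g N : ℕ}

/-- the kind of a junction -/
def kind (i0 t : ZMod N) : Bool := decide ((t - i0).val % 2 = 1)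

theorem kind_step [NeZero N] (hN : (1 : ZMod N) ≠ 0) (i0 t : ZMod N) (ht : t ≠ i0) :
    kind i0 (t - 1) = !kind i0 t := by
  have h1 : (1 : ZMod N).val = 1 := by
    have hN1 : N ≠ 1 := by
      rintro rfl
      exact hN (Subsingleton.elim _ _)
    have hN0 : N ≠ 0 := NeZero.ne N
    rw [ZMod.val_one_eq_one_mod]
    exact Nat.mod_eq_of_lt (by omega)
  have h2 : (t - i0).val ≠ 0 := by
    rw [Ne, ZMod.val_eq_zero, sub_eq_zero]
    exact ht
  have h3 : (t - 1 - i0).val = (t - i0).val - 1 := by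
    have : t - 1 - i0 = (t - i0) - 1 := by ring
    rw [this, ZMod.val_sub (by rw [h1]; omega), h1]
  unfold kind
  rw [h3]
  by_cases h : (t - i0).val % 2 = 1
  · have h4 : ¬ ((t - i0).val - 1) % 2 = 1 := by omega
    simp [h, h4]
  · have h4 : ((t - i0).val - 1) % 2 = 1 := by omega
    simp [h, h4]

/-- the object (junction and index) of a class -/
def obj (t : ZMod N) (c : Bool × Sh g) : ZMod N × Sh g := (if c.1 = true then t else t - 1, c.2)

theorem obj_inj (hN : (1 : ZMod N) ≠ 0) (t : ZMod N) {c d : Bool × Sh g}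
    (h : obj t c = obj t d) : c = d := by
  have ht : t - 1 ≠ t := by
    intro h
    apply hN
    have : t - (t - 1) = t - t := by rw [h]
    simpa using this
  obtain ⟨c1, c2⟩ := c
  obtain ⟨d1, d2⟩ := d
  simp only [obj, Prod.mk.injEq] at h
  obtain ⟨h1, h2⟩ := h
  subst h2
  cases c1 <;> cases d1
  · rfl
  · exact absurd (by simpa using h1) ht
  · exact absurd (by simpa using h1.symm) ht
  · rfl

/-- related objects: different ones at equal or consecutive junctions -/
def Rel (a b : ZMod N × Sh g) : Prop := a ≠ b ∧ (b.1 = a.1 ∨ b.1 = a.1 + 1 ∨ a.1 = b.1 + 1)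

theorem Rel.symm' {a b : ZMod N × Sh g} (h : Rel a b) : Rel b a := by
  obtain ⟨h1, h2⟩ := h
  refine ⟨h1.symm, ?_⟩
  rcases h2 with h | h | h
  · exact Or.inl h.symm
  · exact Or.inr (Or.inr h)
  · exact Or.inr (Or.inl h)

theorem rel_obj (hN : (1 : ZMod N) ≠ 0) (t : ZMod N) {c d : Bool × Sh g} (h : c ≠ d) :
    Rel (obj t c) (obj t d) := by
  refine ⟨fun he => h (obj_inj hN t he), ?_⟩
  obtain ⟨c1, c2⟩ := c
  obtain ⟨d1, d2⟩ := d
  cases c1 <;> cases d1 <;> simp [obj]

theorem card_rel [NeZero N] [DecidableRel (Rel (g := g) (N := N))] (a : ZMod N × Sh g) :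
    (univ.filter (Rel a)).card ≤ 3 * Fintype.card (Sh g) := by
  classical
  have hsub : univ.filter (Rel a) ⊆
      ({a.1, a.1 + 1, a.1 - 1} : Finset (ZMod N)) ×ˢ (univ : Finset (Sh g)) := by
    intro b hb
    rw [mem_product]
    refine ⟨?_, mem_univ _⟩
    have h2 := (mem_filter.mp hb).2.2
    simp only [mem_insert, mem_singleton]
    rcases h2 with h | h | h
    · exact Or.inl h
    · exact Or.inr (Or.inl h)
    · right; right; rw [h]; ring
  refine (card_le_card hsub).trans ?_
  rw [card_product, card_univ]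
  exact Nat.mul_le_mul_right _ card_le_three

variable (i0 : ZMod N) (L : ZMod N → Cell g → Finset ℕ) (Lam : ZMod N → Finset ℕ)

open Classical in
/-- the colours reserved by the cliques next to a cell -/
noncomputable def LamW (t : ZMod N) (p : Cell g) : Finset ℕ :=
  if ∃ s, p = rc s then Lam t ∪ Lam (t + 1) else Lam t

/-- a cell whose list is nearly covered by the reserved colours -/
def Hard (t : ZMod N) (p : Cell g) : Prop :=
  (∀ s, p ≠ lc s) ∧ (L t p \ LamW Lam t p).card ≤ 2 * Fintype.card (Cell g)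

/-- what is asked of the two colours of an object -/
def Good (a : ZMod N × Sh g) (γ : ℕ × ℕ) : Prop :=
  (a.1 ≠ i0 → ∀ p, (¬ ∃ s, p = rc s) → Hard L Lam a.1 p → γ.1 ∈ L a.1 p) ∧
  (a.1 + 1 ≠ i0 → ∀ p, (¬ ∃ s, p = rc s) → Hard L Lam (a.1 + 1) p → γ.2 ∈ L (a.1 + 1) p) ∧
  (a.1 ≠ i0 → ∀ s, oj (kind i0 a.1) s = a.2 → Hard L Lam a.1 (rc s) →
    Serve (Lam a.1) (Lam (a.1 + 1)) γ.1 γ.2 (L a.1 (rc s)))

/-- the set of hypotheses on the lists, the reserved colours and the sizes -/
structure Hyp (n : ℕ) : Prop where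
  hN : (1 : ZMod N) ≠ 0
  hcard : 50 * (3 * Fintype.card (Cell g) ^ 2 + 12 * (2 * g + 1)) < n
  hL : ∀ t, t ≠ i0 → ∀ p, n ≤ (L t p).card
  hLam0 : Lam i0 = ∅
  hLam1 : ∀ t, Lam t = ∅ ∨ n ≤ (Lam t).card
  hLam2 : ∀ t, (Lam t).card ≤ n + Fintype.card (Cell g)

variable {i0 L Lam}

theorem cell_pos (g : ℕ) : 1 ≤ Fintype.card (Cell g) := by
  rw [Fintype.card_prod, card_row, card_col]
  have : 1 ≤ 3 * (2 * g + 1) := by omega
  exact Nat.mul_pos this this

/-- the colours of `Lam t` common to all hard private cells of block `t` -/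
noncomputable def Gd (L : ZMod N → Cell g → Finset ℕ) (Lam : ZMod N → Finset ℕ) (t : ZMod N) :
    Finset ℕ := by
  classical
  exact (Lam t).filter fun x => ∀ p, (¬ ∃ s, p = rc s) → Hard L Lam t p → x ∈ L t p

theorem card_Gd {n : ℕ} (h : Hyp i0 L Lam n) (t : ZMod N) :
    (Lam t \ Gd L Lam t).card ≤ 3 * Fintype.card (Cell g) ^ 2 := by
  classical
  by_cases ht : t = i0
  · subst ht
    rw [h.hLam0]; simp
  have hsub : Lam t \ Gd L Lam t ⊆
      (univ.filter fun p => (¬ ∃ s, p = rc s) ∧ Hard L Lam t p).biUnion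
        fun p => Lam t \ L t p := by
    intro x hx
    rw [mem_sdiff] at hx
    have hx2 : ¬ ∀ p, (¬ ∃ s, p = rc s) → Hard L Lam t p → x ∈ L t p := by
      intro hall
      exact hx.2 (by unfold Gd; exact mem_filter.mpr ⟨hx.1, hall⟩)
    push Not at hx2
    obtain ⟨p, hp1, hp2, hp3⟩ := hx2
    refine mem_biUnion.mpr ⟨p, mem_filter.mpr ⟨mem_univ _, ?_, hp2⟩, mem_sdiff.mpr ⟨hx.1, hp3⟩⟩
    rintro ⟨s, hs⟩
    exact hp1 s hs
  refine (card_le_card hsub).trans ((card_biUnion_le_card_mul _ _
    (3 * Fintype.card (Cell g)) ?_).trans ?_)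
  · intro p hp
    obtain ⟨hp1, hp2⟩ := (mem_filter.mp hp).2
    have h1 := hp2.2
    unfold LamW at h1
    rw [if_neg hp1] at h1
    have h2 : (L t p \ Lam t).card + (L t p ∩ Lam t).card = (L t p).card :=
      card_sdiff_add_card_inter _ _
    have h3 : (Lam t \ L t p).card + (Lam t ∩ L t p).card = (Lam t).card :=
      card_sdiff_add_card_inter _ _
    rw [inter_comm] at h3
    have h4 := h.hL t ht p
    have h5 := h.hLam2 t
    omega
  · have h1 : (univ.filter fun p : Cell g => (¬ ∃ s, p = rc s) ∧ Hard L Lam t p).card ≤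
        Fintype.card (Cell g) := card_le_univ _
    calc _ ≤ Fintype.card (Cell g) * (3 * Fintype.card (Cell g)) := Nat.mul_le_mul_right _ h1
      _ = 3 * Fintype.card (Cell g) ^ 2 := by ring

theorem good_of_Gd {n : ℕ} (h : Hyp i0 L Lam n) (t : ZMod N) (ht : t ≠ i0) (x : ℕ)
    (hx : Lam t = ∅ ∨ x ∈ Gd L Lam t) (p : Cell g) (hp : ¬ ∃ s, p = rc s)
    (hH : Hard L Lam t p) : x ∈ L t p := by
  classical
  rcases hx with hx | hx
  · exfalso
    have h1 := hH.2
    unfold LamW at h1
    rw [if_neg hp, hx, sdiff_empty] at h1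
    have h2 := h.hL t ht p
    have h3 := h.hcard
    have h4 := cell_pos g
    have h5 : Fintype.card (Cell g) ≤ Fintype.card (Cell g) ^ 2 := by nlinarith
    omega
  · unfold Gd at hx
    exact (mem_filter.mp hx).2 p hp hH

theorem exists_gamma {n : ℕ} [NeZero N] (h : Hyp i0 L Lam n) :
    ∃ γ : ZMod N × Sh g → ℕ × ℕ, (∀ a, Good i0 L Lam a (γ a)) ∧
      ∀ a b, Rel a b → Disjoint ({(γ a).1, (γ a).2} : Finset ℕ) {(γ b).1, (γ b).2} := by
  classical
  refine greedy_choice (ι := ZMod N × Sh g) Rel (fun _ _ => Rel.symm') (fun _ h => h.1 rfl)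
    (fun γ : ℕ × ℕ => {γ.1, γ.2}) 2 (fun γ => card_le_two) (Good i0 L Lam)
    (3 * Fintype.card (Sh g)) card_rel ?_
  intro a F hF
  obtain ⟨t, o⟩ := a
  set c := 3 * Fintype.card (Cell g) ^ 2 + 12 * (2 * g + 1) with hc
  have hSh : Fintype.card (Sh g) = 2 * (2 * g + 1) := by
    simp [Sh]; ring
  have hC := cell_pos g
  have hC2 : Fintype.card (Cell g) ≤ Fintype.card (Cell g) ^ 2 := by nlinarith
  have hcn := h.hcard
  rw [← hc] at hcn
  obtain ⟨x, y, ⟨hxF, hyF, hxG, hyG⟩, hS⟩ := pair_lemma (n := n) (c := c) (F := F)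
    (A := Lam t) (B := Lam (t + 1)) (GA := Gd L Lam t) (GB := Gd L Lam (t + 1))
    (h.hLam1 t) (h.hLam1 (t + 1)) ((h.hLam2 t).trans (by omega))
    ((h.hLam2 (t + 1)).trans (by omega)) ((card_Gd h t).trans (by omega))
    ((card_Gd h (t + 1)).trans (by omega)) (by omega) hcn
    (univ.filter fun s : Sh g => t ≠ i0 ∧ oj (kind i0 t) s = o ∧ Hard L Lam t (rc s)) (by
      have hsub : (univ.filter fun s : Sh g => t ≠ i0 ∧ oj (kind i0 t) s = o ∧
          Hard L Lam t (rc s)) ⊆ {(o.1, false), (o.1, true)} := by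
        intro s hs
        obtain ⟨_, hs2, _⟩ := (mem_filter.mp hs).2
        have h1 : s.1 = o.1 := by
          rw [← hs2]
          unfold oj
          split_ifs <;> rfl
        obtain ⟨s1, s2⟩ := s
        simp only at h1
        subst h1
        cases s2 <;> simp
      exact (card_le_card hsub).trans card_le_two)
    (fun s => L t (rc s))
    (by
      intro s hs
      exact h.hL t (mem_filter.mp hs).2.1 _)
    (by
      intro s hs
      have h1 := (mem_filter.mp hs).2.2.2.2
      unfold LamW at h1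
      rw [if_pos ⟨s, rfl⟩] at h1
      omega)
  refine ⟨(x, y), ⟨?_, ?_, ?_⟩, ?_⟩
  · intro ht p hp hH
    exact good_of_Gd h t ht x hxG p hp hH
  · intro ht p hp hH
    exact good_of_Gd h (t + 1) ht y hyG p hp hH
  · intro ht s hs hH
    exact hS s (mem_filter.mpr ⟨mem_univ _, ht, hs, hH⟩)
  · simp only [disjoint_insert_left, disjoint_singleton_left]
    exact ⟨hxF, hyF⟩

end ring

end Pool.Agent.Y349.KS
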