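import Pool.Agent.Y349.KS.Seg

set_option autoImplicit false

/-!
Cutting the ring at a block: the colouring.
-/

namespace Pool.Agent.Y349.KS

open Finset

section ring

variable {g N : ℕ}

/-- colour of a class of block `t` -/
def colr (γ : ZMod N × Sh g → ℕ × ℕ) (t : ZMod N) (c : Bool × Sh g) : ℕ :=
  if c.1 = true then (γ (t, c.2)).1 else (γ (t - 1, c.2)).2

open Classical in
/-- colours of the hard cells -/
noncomputable def phi0 (i0 : ZMod N) (L : ZMod N → Cell g → Finset ℕ) (Lam : ZMod N → Finset ℕ)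
    (γ : ZMod N × Sh g → ℕ × ℕ) (t : ZMod N) (p : Cell g) : ℕ :=
  if (cl (kind i0 (t - 1)) p).1 = true then
    if (∃ s, p = rc s) ∧ ¬ ((γ (t, (cl (kind i0 (t - 1)) p).2)).1 ∈ L t p ∧
        ((γ (t, (cl (kind i0 (t - 1)) p).2)).1 ∉ Lam (t + 1) ∨
          (γ (t, (cl (kind i0 (t - 1)) p).2)).1 = (γ (t, (cl (kind i0 (t - 1)) p).2)).2)) then
      (γ (t, (cl (kind i0 (t - 1)) p).2)).2
    else (γ (t, (cl (kind i0 (t - 1)) p).2)).1
  else (γ (t - 1, (cl (kind i0 (t - 1)) p).2)).2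

variable {i0 : ZMod N} {L : ZMod N → Cell g → Finset ℕ} {Lam : ZMod N → Finset ℕ}
  {γ : ZMod N × Sh g → ℕ × ℕ}

theorem phi0_rc [NeZero N] (hN : (1 : ZMod N) ≠ 0) {t : ZMod N} (ht : t ≠ i0) (s : Sh g) :
    phi0 i0 L Lam γ t (rc s) =
      open Classical in
      if ((γ (t, oj (kind i0 t) s)).1 ∈ L t (rc s) ∧
        ((γ (t, oj (kind i0 t) s)).1 ∉ Lam (t + 1) ∨
          (γ (t, oj (kind i0 t) s)).1 = (γ (t, oj (kind i0 t) s)).2)) then
        (γ (t, oj (kind i0 t) s)).1 else (γ (t, oj (kind i0 t) s)).2 := by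
  classical
  unfold phi0
  rw [kind_step hN i0 t ht, cl_rc]
  simp only [if_true]
  have h1 : ∃ s', rc s = rc s' := ⟨s, rfl⟩
  by_cases h : (γ (t, oj (kind i0 t) s)).1 ∈ L t (rc s) ∧
        ((γ (t, oj (kind i0 t) s)).1 ∉ Lam (t + 1) ∨
          (γ (t, oj (kind i0 t) s)).1 = (γ (t, oj (kind i0 t) s)).2)
  · rw [if_neg (by rintro ⟨_, h2⟩; exact h2 h), if_pos h]
  · rw [if_pos ⟨h1, h⟩, if_neg h]

theorem phi0_nrc {t : ZMod N} {p : Cell g} (hp : ¬ ∃ s, p = rc s) :
    phi0 i0 L Lam γ t p = colr γ t (cl (kind i0 (t - 1)) p) := by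
  classical
  unfold phi0 colr
  by_cases h1 : (cl (kind i0 (t - 1)) p).1 = true
  · rw [if_pos h1, if_pos h1, if_neg (fun h => hp h.1)]
  · rw [if_neg h1, if_neg h1]

theorem phi0_mem_L [NeZero N] {n : ℕ} (h : Hyp i0 L Lam n)
    (hγ : ∀ a, Good i0 L Lam a (γ a)) {t : ZMod N} (ht : t ≠ i0) {p : Cell g}
    (hH : Hard L Lam t p) : phi0 i0 L Lam γ t p ∈ L t p := by
  classical
  by_cases hp : ∃ s, p = rc s
  · obtain ⟨s, rfl⟩ := hp
    rw [phi0_rc h.hN ht]
    have hs := (hγ (t, oj (kind i0 t) s)).2.2 ht s rfl hH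
    split_ifs with h1
    · exact h1.1
    · rcases hs with hs | hs
      · exact absurd hs h1
      · exact hs.1
  · rw [phi0_nrc hp]
    unfold colr
    split_ifs with h1
    · exact (hγ (t, _)).1 ht p hp hH
    · have h2 : t - 1 + 1 = t := sub_add_cancel t 1
      have := (hγ (t - 1, (cl (kind i0 (t - 1)) p).2)).2.1 (by rw [h2]; exact ht) p hp
        (by rw [h2]; exact hH)
      rw [h2] at this
      exact this

theorem phi0_col (t : ZMod N) (p : Cell g) :
    phi0 i0 L Lam γ t p ∈ ({(γ (obj t (cl (kind i0 (t - 1)) p))).1,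
      (γ (obj t (cl (kind i0 (t - 1)) p))).2} : Finset ℕ) := by
  classical
  unfold phi0 obj
  split_ifs <;> simp

theorem phi0_Lam [NeZero N] {n : ℕ} (h : Hyp i0 L Lam n)
    (hγ : ∀ a, Good i0 L Lam a (γ a)) {t : ZMod N} (ht : t ≠ i0) {p : Cell g}
    (hH : Hard L Lam t p) (hmem : phi0 i0 L Lam γ t p ∈ Lam t) :
    phi0 i0 L Lam γ t p = colr γ t (cl (kind i0 (t - 1)) p) := by
  classical
  by_cases hp : ∃ s, p = rc s
  · obtain ⟨s, rfl⟩ := hp
    have hs := (hγ (t, oj (kind i0 t) s)).2.2 ht s rfl hH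
    rw [phi0_rc h.hN ht] at hmem ⊢
    rw [kind_step h.hN i0 t ht, cl_rc]
    unfold colr
    simp only [if_true]
    split_ifs at hmem ⊢ with h1
    · rfl
    · rcases hs with hs | hs
      · exact absurd hs h1
      · rcases hs.2 with h2 | h2
        · exact absurd hmem h2
        · exact h2.symm
  · exact phi0_nrc hp

theorem phi0_Lam' [NeZero N] {n : ℕ} (h : Hyp i0 L Lam n)
    (hγ : ∀ a, Good i0 L Lam a (γ a)) {t : ZMod N} (ht : t ≠ i0) {s : Sh g}
    (hH : Hard L Lam t (rc s)) (hmem : phi0 i0 L Lam γ t (rc s) ∈ Lam (t + 1)) :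
    phi0 i0 L Lam γ t (rc s) = (γ (t, oj (kind i0 t) s)).2 := by
  classical
  have hs := (hγ (t, oj (kind i0 t) s)).2.2 ht s rfl hH
  rw [phi0_rc h.hN ht] at hmem ⊢
  split_ifs at hmem ⊢ with h1
  · rcases h1.2 with h2 | h2
    · exact absurd hmem h2
    · exact h2
  · rfl

theorem phi_emb_col [NeZero N] (hN : (1 : ZMod N) ≠ 0) (t : ZMod N) (p : Cell g)
    (ht : (emb t p).1 ≠ i0) :
    phi0 i0 L Lam γ (emb t p).1 (emb t p).2 ∈ ({(γ (obj t (cl (kind i0 (t - 1)) p))).1,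
      (γ (obj t (cl (kind i0 (t - 1)) p))).2} : Finset ℕ) := by
  rcases emb_cases t p with ⟨s, hp, hp'⟩ | ⟨_, hp'⟩
  · rw [hp'] at ht ⊢
    simp only at ht ⊢
    have h1 := phi0_col (i0 := i0) (L := L) (Lam := Lam) (γ := γ) (t - 1) (rc s)
    rw [kind_step hN i0 (t - 1) ht, cl_rc] at h1
    rw [hp, cl_lc]
    have h2 : obj (t - 1) ((true, oj (kind i0 (t - 1)) s) : Bool × Sh g) =
        obj t (false, oj (kind i0 (t - 1)) s) := by
      simp [obj]
    rw [h2] at h1
    exact h1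
  · rw [hp']
    exact phi0_col t p

theorem phi_emb_Lam [NeZero N] {n : ℕ} (h : Hyp i0 L Lam n)
    (hγ : ∀ a, Good i0 L Lam a (γ a)) (t : ZMod N) (p : Cell g)
    (ht : (emb t p).1 ≠ i0) (hH : Hard L Lam (emb t p).1 (emb t p).2)
    (hmem : phi0 i0 L Lam γ (emb t p).1 (emb t p).2 ∈ Lam t) :
    phi0 i0 L Lam γ (emb t p).1 (emb t p).2 = colr γ t (cl (kind i0 (t - 1)) p) := by
  rcases emb_cases t p with ⟨s, hp, hp'⟩ | ⟨_, hp'⟩
  · rw [hp'] at ht hH hmem ⊢
    simp only at ht hH hmem ⊢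
    have h2 : t - 1 + 1 = t := sub_add_cancel t 1
    rw [phi0_Lam' h hγ ht hH (by rw [h2]; exact hmem), hp, cl_lc]
    simp [colr]
  · rw [hp'] at ht hH hmem ⊢
    exact phi0_Lam h hγ ht hH hmem

theorem Lam_subset_LamW (t : ZMod N) (p : Cell g) :
    Lam t ⊆ LamW Lam (emb t p).1 (emb t p).2 := by
  classical
  rcases emb_cases t p with ⟨s, _, hp'⟩ | ⟨_, hp'⟩
  · rw [hp']
    unfold LamW
    rw [if_pos ⟨s, rfl⟩, sub_add_cancel]
    exact subset_union_right
  · rw [hp']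
    unfold LamW
    split_ifs
    · exact subset_union_left
    · exact Subset.refl _

/-- adjacency of cells in the chain -/
def cadj (i0 : ZMod N) (u v : ZMod N × Cell g) : Prop :=
  u.1 ≠ i0 ∧ v.1 ≠ i0 ∧ ∃ (t : ZMod N) (p q : Cell g), p.1 ≠ q.1 ∧ p.2 ≠ q.2 ∧
    emb t p = u ∧ emb t q = v

theorem card_cadj [NeZero N] [DecidableRel (cadj (g := g) i0)] (u : ZMod N × Cell g) :
    (univ.filter (cadj i0 u)).card ≤ 2 * Fintype.card (Cell g) := by
  classical
  have hsub : univ.filter (cadj i0 u) ⊆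
      (univ.image (emb (g := g) u.1)) ∪ (univ.image (emb (g := g) (u.1 + 1))) := by
    intro v hv
    obtain ⟨_, _, t, p, q, _, _, hp, hq⟩ := (mem_filter.mp hv).2
    have h : (emb t p).1 = t - 1 ∨ (emb t p).1 = t := by
      rcases emb_cases t p with ⟨s, _, hp'⟩ | ⟨_, hp'⟩ <;> rw [hp'] <;> simp
    rcases h with h | h
    · rw [hp] at h
      refine mem_union_right _ (mem_image.mpr ⟨q, mem_univ _, ?_⟩)
      rw [h, sub_add_cancel]; exact hq
    · rw [hp] at h
      refine mem_union_left _ (mem_image.mpr ⟨q, mem_univ _, ?_⟩)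
      rw [h]; exact hq
  refine (card_le_card hsub).trans ((card_union_le _ _).trans ?_)
  have h1 : ∀ t : ZMod N, (univ.image (emb (g := g) t)).card ≤
      Fintype.card (Cell g) := fun t => card_image_le.trans (le_of_eq card_univ)
  exact (add_le_add (h1 _) (h1 _)).trans (le_of_eq (two_mul _).symm)

theorem cadj_irrefl (hN : (1 : ZMod N) ≠ 0) (u : ZMod N × Cell g) : ¬ cadj i0 u u := by
  rintro ⟨_, _, t, p, q, h1, _, hp, hq⟩
  exact h1 (by rw [emb_inj hN t (hp.trans hq.symm)])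

/-- a colouring of all cells of the chain -/
theorem exists_cells [NeZero N] {n : ℕ} (h : Hyp i0 L Lam n) :
    ∃ φ : ZMod N × Cell g → ℕ, (∀ v, v.1 ≠ i0 → φ v ∈ L v.1 v.2) ∧
      (∀ u v, cadj i0 u v → φ u ≠ φ v) ∧
      ∀ t, ((((univ.filter fun p : Cell g => (emb t p).1 ≠ i0).image fun p => φ (emb t p))) ∩
        Lam t).card ≤ 3 * (2 * g + 1) := by
  classical
  obtain ⟨γ, hγ, hdis⟩ := exists_gamma h
  have hC := cell_pos g
  have hC2 : Fintype.card (Cell g) ≤ Fintype.card (Cell g) ^ 2 := by nlinarith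
  have hcn := h.hcard
  let S : Finset (ZMod N × Cell g) := univ.filter fun v => v.1 = i0 ∨ Hard L Lam v.1 v.2
  let A : ZMod N × Cell g → Finset ℕ := fun v =>
    if (L v.1 v.2 \ LamW Lam v.1 v.2).card ≤ 2 * Fintype.card (Cell g) then L v.1 v.2
    else L v.1 v.2 \ LamW Lam v.1 v.2
  have hprop : ∀ u v, cadj i0 u v → Hard L Lam u.1 u.2 → Hard L Lam v.1 v.2 →
      phi0 i0 L Lam γ u.1 u.2 ≠ phi0 i0 L Lam γ v.1 v.2 := by
    rintro u v ⟨hu, hv, t, p, q, h1, h2, rfl, rfl⟩ _ _ he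
    have hcol := phi_emb_col (L := L) (Lam := Lam) (γ := γ) h.hN t p hu
    have hcol' := phi_emb_col (L := L) (Lam := Lam) (γ := γ) h.hN t q hv
    have hd := hdis _ _ (rel_obj h.hN t (cl_ne (kind i0 (t - 1)) h1 h2))
    rw [he] at hcol
    exact disjoint_left.mp hd hcol hcol'
  obtain ⟨φ, hφS, hφA, hφp⟩ := greedy (cadj i0)
    (by rintro u v ⟨h1, h2, t, p, q, h3, h4, h5, h6⟩
        exact ⟨h2, h1, t, q, p, h3.symm, h4.symm, h6, h5⟩)
    (cadj_irrefl h.hN) S (fun v => phi0 i0 L Lam γ v.1 v.2)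
    (by
      intro u hu v hv huv
      refine hprop u v huv ?_ ?_
      · rcases (mem_filter.mp hu).2 with h1 | h1
        · exact absurd h1 huv.1
        · exact h1
      · rcases (mem_filter.mp hv).2 with h1 | h1
        · exact absurd h1 huv.2.1
        · exact h1)
    A
    (by
      intro v hv
      refine lt_of_le_of_lt (card_cadj v) ?_
      have hv1 : v.1 ≠ i0 := by
        intro h1
        exact hv (mem_filter.mpr ⟨mem_univ _, Or.inl h1⟩)
      have h2 := h.hL v.1 hv1 v.2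
      simp only [A]
      split_ifs with h1
      · omega
      · omega)
  refine ⟨φ, ?_, hφp, ?_⟩
  · intro v hv
    by_cases hvS : v ∈ S
    · rw [hφS v hvS]
      rcases (mem_filter.mp hvS).2 with h1 | h1
      · exact absurd h1 hv
      · exact phi0_mem_L h hγ hv h1
    · have h1 := hφA v hvS
      simp only [A] at h1
      split_ifs at h1 with h2
      · exact h1
      · exact (mem_sdiff.mp h1).1
  · intro t
    have hsub : ((univ.filter fun p : Cell g => (emb t p).1 ≠ i0).image fun p => φ (emb t p)) ∩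
        Lam t ⊆ (univ.image (cl (g := g) (kind i0 (t - 1)))).image (colr γ t) := by
      intro x hx
      obtain ⟨hx1, hx2⟩ := mem_inter.mp hx
      obtain ⟨p, hp, rfl⟩ := mem_image.mp hx1
      have hp1 := (mem_filter.mp hp).2
      refine mem_image.mpr ⟨cl (kind i0 (t - 1)) p, mem_image_of_mem _ (mem_univ _), ?_⟩
      by_cases hvS : emb t p ∈ S
      · rw [hφS _ hvS] at hx2 ⊢
        rcases (mem_filter.mp hvS).2 with h1 | h1
        · exact absurd h1 hp1
        · exact (phi_emb_Lam h hγ t p hp1 h1 hx2).symm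
      · exfalso
        have h1 := hφA _ hvS
        simp only [A] at h1
        split_ifs at h1 with h2
        · -- then `emb t p` would be a left cell
          apply hvS
          refine mem_filter.mpr ⟨mem_univ _, Or.inr ⟨?_, h2⟩⟩
          rcases emb_cases t p with ⟨s, _, hp'⟩ | ⟨hl, hp'⟩
          · rw [hp']
            intro s' hs'
            simp [rc, lc] at hs'
          · rw [hp']
            exact hl
        · exact (mem_sdiff.mp h1).2 (Lam_subset_LamW t p hx2)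
    exact (card_le_card hsub).trans (card_image_le.trans (card_image_cl _))

end ring

/-- Cutting the ring at block `i0` leaves a graph which is colourable from all lists of size
`3(2g+1) + n`. -/
theorem ring_cut {g n N : ℕ} [NeZero N] (hN : (1 : ZMod N) ≠ 0)
    (hcard : 50 * (3 * Fintype.card (Cell g) ^ 2 + 12 * (2 * g + 1)) < n)
    (i0 : ZMod N) (L : Vt g n N → Finset ℕ)
    (hL : ∀ v, v.1 ≠ i0 → 3 * (2 * g + 1) + n ≤ (L v).card) :
    ∃ φ : Vt g n N → ℕ, (∀ v, v.1 ≠ i0 → φ v ∈ L v) ∧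
      ∀ u v, u.1 ≠ i0 → v.1 ≠ i0 → (ring g n N).Adj u v → φ u ≠ φ v := by
  classical
  have hC := cell_pos g
  have hC2 : Fintype.card (Cell g) ≤ Fintype.card (Cell g) ^ 2 := by nlinarith
  have hLam : ∀ t : ZMod N, ∃ Λ : Finset ℕ, (t = i0 → Λ = ∅) ∧ (Λ = ∅ ∨ n ≤ Λ.card) ∧
      Λ.card ≤ n + Fintype.card (Cell g) ∧
      (t ≠ i0 → ∀ U : Finset ℕ, U.card ≤ Fintype.card (Cell g) →
        (U ∩ Λ).card ≤ 3 * (2 * g + 1) →
        ∃ f : Fin n → ℕ, Function.Injective f ∧ ∀ q, f q ∈ L (t, Sum.inr q) ∧ f q ∉ U) := by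
    intro t
    by_cases ht : t = i0
    · exact ⟨∅, fun _ => rfl, Or.inl rfl, by simp, fun h => absurd ht h⟩
    · obtain ⟨Λ, h1, h2, h3⟩ := exists_Lam (Q := Fin n) n (3 * (2 * g + 1))
        (Fintype.card (Cell g)) (by simp) (by omega) (fun q => L (t, Sum.inr q))
        (fun q => hL _ ht)
      exact ⟨Λ, fun h => absurd h ht, h1, h2, fun _ => h3⟩
  choose Lam hLam0 hLam1 hLam2 hLam3 using hLam
  have hyp : Hyp i0 (fun t p => L (t, Sum.inl p)) Lam n :=
    { hN := hN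
      hcard := hcard
      hL := fun t ht p => (Nat.le_add_left _ _).trans (hL (t, Sum.inl p) ht)
      hLam0 := hLam0 i0 rfl
      hLam1 := hLam1
      hLam2 := hLam2 }
  obtain ⟨φ, hφ1, hφ2, hφ3⟩ := exists_cells hyp
  have hQ : ∀ t : ZMod N, ∃ f : Fin n → ℕ, t ≠ i0 → Function.Injective f ∧
      ∀ q, f q ∈ L (t, Sum.inr q) ∧
        f q ∉ (univ.filter fun p : Cell g => (emb t p).1 ≠ i0).image fun p => φ (emb t p) := by
    intro t
    by_cases ht : t = i0
    · exact ⟨fun _ => 0, fun h => absurd ht h⟩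
    · obtain ⟨f, hf⟩ := hLam3 t ht
        ((univ.filter fun p : Cell g => (emb t p).1 ≠ i0).image fun p => φ (emb t p))
        (card_image_le.trans (card_le_univ _)) (hφ3 t)
      exact ⟨f, fun _ => hf⟩
  choose f hf using hQ
  refine ⟨fun v => match v with
    | (t, Sum.inl p) => φ (t, p)
    | (t, Sum.inr q) => f t q, ?_, ?_⟩
  · rintro ⟨t, p | q⟩ hv
    · exact hφ1 (t, p) hv
    · exact ((hf t hv).2 q).1
  · rintro u v hu hv ⟨_, t, p, q, hpq, rfl, rfl⟩
    rcases p with p | p <;> rcases q with q | q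
    · exact hφ2 (emb t p) (emb t q) ⟨hu, hv, t, p, q, hpq.1, hpq.2, rfl, rfl⟩
    · intro he
      refine ((hf t hv).2 q).2 (mem_image.mpr ⟨p, mem_filter.mpr ⟨mem_univ _, hu⟩, ?_⟩)
      exact he
    · intro he
      refine ((hf t hu).2 p).2 (mem_image.mpr ⟨q, mem_filter.mpr ⟨mem_univ _, hv⟩, ?_⟩)
      exact he.symm
    · intro he
      exact hpq ((hf t hu).1 he)

end Pool.Agent.Y349.KS
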